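import Pool.Agent.N980.WT.Qm
import Pool.Agent.N980.WQ.Coef

/-!
The coefficients of the packets, of their curls and double curls.
-/

open MeasureTheory Set Filter Topology
open scoped ContDiff

set_option linter.unusedVariables false

namespace Pool.Agent.N980.WT

open Pool.Agent.N980.NU
open Pool.Agent.N980.WP
open Pool.Agent.N980.WQ
open Pool.Agent.N980.CB (one_le_R R_pos inn out FF energy_nonneg parseval)
open Pool.Agent.H356R3.NS (K C3 E3 R3 ex SN Sym RD TT SF SFam Fam cf' at' nk pw fj dS Bf dt)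

/-! ### the curl on the Fourier side -/

theorem cl_cl {N : ℝ} (hN : N ≠ 0) (k : K) (a : C3) (h : (k 0 : ℂ) * a 0 + (k 1 : ℂ) * a 1 + (k 2 : ℂ) * a 2 = 0) :
    cl N k (cl N k a) = (H356R3.NS.sq k / N ^ 2) • a := by
  have hNc : (N : ℂ) ≠ 0 := by exact_mod_cast hN
  have hI := Complex.I_sq
  have hsq : ((H356R3.NS.sq k : ℝ) : ℂ) = (k 0 : ℂ) ^ 2 + (k 1 : ℂ) ^ 2 + (k 2 : ℂ) ^ 2 := by
    unfold H356R3.NS.sq
    rw [Fin.sum_univ_three]
    push_cast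
    ring
  funext i
  rw [Pi.smul_apply, Complex.real_smul, Complex.ofReal_div, hsq, Complex.ofReal_pow]
  fin_cases i
  · show Complex.I * ((k 1 : ℂ) * (Complex.I * ((k 0 : ℂ) * a 1 - (k 1 : ℂ) * a 0) / N)
      - (k 2 : ℂ) * (Complex.I * ((k 2 : ℂ) * a 0 - (k 0 : ℂ) * a 2) / N)) / N = _ * a 0
    field_simp
    linear_combination (((k 1 : ℂ) * ((k 0 : ℂ) * a 1 - (k 1 : ℂ) * a 0)
      - (k 2 : ℂ) * ((k 2 : ℂ) * a 0 - (k 0 : ℂ) * a 2))) * hI - (k 0 : ℂ) * h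
  · show Complex.I * ((k 2 : ℂ) * (Complex.I * ((k 1 : ℂ) * a 2 - (k 2 : ℂ) * a 1) / N)
      - (k 0 : ℂ) * (Complex.I * ((k 0 : ℂ) * a 1 - (k 1 : ℂ) * a 0) / N)) / N = _ * a 1
    field_simp
    linear_combination (((k 2 : ℂ) * ((k 1 : ℂ) * a 2 - (k 2 : ℂ) * a 1)
      - (k 0 : ℂ) * ((k 0 : ℂ) * a 1 - (k 1 : ℂ) * a 0))) * hI - (k 1 : ℂ) * h
  · show Complex.I * ((k 0 : ℂ) * (Complex.I * ((k 2 : ℂ) * a 0 - (k 0 : ℂ) * a 2) / N)
      - (k 1 : ℂ) * (Complex.I * ((k 1 : ℂ) * a 2 - (k 2 : ℂ) * a 1) / N)) / N = _ * a 2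
    field_simp
    linear_combination (((k 0 : ℂ) * ((k 2 : ℂ) * a 0 - (k 0 : ℂ) * a 2)
      - (k 1 : ℂ) * ((k 1 : ℂ) * a 2 - (k 2 : ℂ) * a 1))) * hI - (k 2 : ℂ) * h

/-- The curl is symmetric. -/
theorem cl_symm {N : ℝ} (k : K) (a b : C3) : ∑ i, cl N k a i * star (b i) = ∑ i, a i * star (cl N k b i) := by
  rw [Fin.sum_univ_three, Fin.sum_univ_three]
  simp only [cl, Matrix.cons_val_zero, Matrix.cons_val_one, Matrix.cons_val, star_div₀, star_mul', star_sub,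
    Complex.star_def, Complex.conj_I, Complex.conj_ofReal, map_intCast]
  ring

theorem cl_sq_eq {N : ℝ} (hN : N ≠ 0) (k : K) (a : C3) (h : (k 0 : ℂ) * a 0 + (k 1 : ℂ) * a 1 + (k 2 : ℂ) * a 2 = 0) :
    ∑ i, ‖cl N k a i‖ ^ 2 = H356R3.NS.sq k / N ^ 2 * ∑ i, ‖a i‖ ^ 2 := by
  have e : ∀ b : C3, ((∑ i, ‖b i‖ ^ 2 : ℝ) : ℂ) = ∑ i, b i * star (b i) := by
    intro b
    rw [Complex.ofReal_sum]
    refine Finset.sum_congr rfl fun i _ => ?_
    rw [Complex.star_def, Complex.mul_conj, Complex.normSq_eq_norm_sq]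
  have h1 : ((∑ i, ‖cl N k a i‖ ^ 2 : ℝ) : ℂ) = ((H356R3.NS.sq k / N ^ 2 * ∑ i, ‖a i‖ ^ 2 : ℝ) : ℂ) := by
    rw [Complex.ofReal_mul, e, e, ← cl_symm, cl_cl hN k a h, Finset.mul_sum]
    refine Finset.sum_congr rfl fun i _ => ?_
    rw [Pi.smul_apply, Complex.real_smul, mul_assoc]
  exact_mod_cast h1

variable (P : Qm)

theorem kdot (n : ℕ) (k : K) : (k 0 : ℂ) * P.X.ψ n k 0 + (k 1 : ℂ) * P.X.ψ n k 1 + (k 2 : ℂ) * P.X.ψ n k 2 = 0 := by
  have h := P.Dv n k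
  unfold H356R3.NS.dt at h
  rw [Fin.sum_univ_three] at h
  exact h

theorem spsi_eq (n : ℕ) (k : K) : (sX P).ψ n k = (H356R3.NS.sq k / ((P.R : ℝ) ^ n) ^ 2) • P.X.ψ n k :=
  cl_cl (R_pos P.wh.wd.hR n).ne' k (P.X.ψ n k) (kdot P n k)

theorem qpsi_sq (n : ℕ) (k : K) : ∑ i, ‖(qX P).ψ n k i‖ ^ 2
    = H356R3.NS.sq k / ((P.R : ℝ) ^ n) ^ 2 * ∑ i, ‖P.X.ψ n k i‖ ^ 2 :=
  cl_sq_eq (R_pos P.wh.wd.hR n).ne' k (P.X.ψ n k) (kdot P n k)

/-! ### orthogonality -/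

theorem pq_all (m n : ℕ) (k : K) : ∑ i, P.X.ψ m k i * star ((qX P).ψ n k i) = 0 := by
  by_cases hmn : m = n
  · subst hmn
    exact P.pk.pq m k
  · by_cases h1 : P.X.ψ m k = 0
    · rw [h1]; simp
    · by_cases h2 : (qX P).ψ n k = 0
      · rw [h2]; simp
      · exact absurd ((P.X.lv m k h1).1.symm.trans ((qX P).lv n k h2).1) hmn

theorem co_q (m n : ℕ) : P.co ((qX P).F m) n = 0 := by
  unfold Qm.co
  rw [fco_F']
  have : ∀ k : K, ∑ i, (qX P).ψ m k i * star (P.X.ψ n k i) = 0 := by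
    intro k
    have h := pq_all P n m k
    have h2 := congrArg star h
    rw [star_sum, star_zero] at h2
    rw [← h2]
    refine Finset.sum_congr rfl fun i _ => ?_
    rw [star_mul', star_star, mul_comm]
  rw [tsum_congr this, tsum_zero, Complex.zero_re]

theorem qo_p (m n : ℕ) : qo P (P.X.F m) n = 0 := by
  unfold qo
  rw [fco_F', tsum_congr (pq_all P m n), tsum_zero, Complex.zero_re]

/-- The square of the norm of the curl of the packet. -/
noncomputable def th (n : ℕ) : ℝ := qo P ((qX P).F n) n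

theorem qo_q (m n : ℕ) : qo P ((qX P).F m) n = if m = n then th P n else 0 := by
  by_cases hmn : m = n
  · subst hmn; rw [if_pos rfl]; rfl
  · rw [if_neg hmn]
    unfold qo
    rw [fco_F']
    have : ∀ k : K, ∑ i, (qX P).ψ m k i * star ((qX P).ψ n k i) = 0 := by
      intro k
      by_cases h1 : (qX P).ψ m k = 0
      · rw [h1]; simp
      · by_cases h2 : (qX P).ψ n k = 0
        · rw [h2]; simp
        · exact absurd (((qX P).lv m k h1).1.symm.trans ((qX P).lv n k h2).1) hmn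
    rw [tsum_congr this, tsum_zero, Complex.zero_re]

theorem sum_sq (a : C3) : ∑ i, a i * star (a i) = ((∑ i, ‖a i‖ ^ 2 : ℝ) : ℂ) := by
  rw [Complex.ofReal_sum]
  refine Finset.sum_congr rfl fun i _ => ?_
  rw [Complex.star_def, Complex.mul_conj, Complex.normSq_eq_norm_sq]

theorem th_eq (n : ℕ) : th P n = ∑' k, ∑ i, ‖(qX P).ψ n k i‖ ^ 2 := by
  unfold th qo
  rw [fco_F', tsum_congr fun k => sum_sq ((qX P).ψ n k), ← Complex.ofReal_tsum, Complex.ofReal_re]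

theorem pl2 (n : ℕ) : ∑' k, ∑ i, ‖P.X.ψ n k i‖ ^ 2 = 1 := by
  have h := P.pk.on n n
  rw [if_pos rfl] at h
  rw [← h]
  unfold Fm.co
  rw [tsum_congr fun k => sum_sq (P.X.ψ n k), ← Complex.ofReal_tsum, Complex.ofReal_re]

theorem p_summ (n : ℕ) : Summable fun k : K => ∑ i, ‖P.X.ψ n k i‖ ^ 2 :=
  P.X.summ n (fun k v => ∑ i, ‖v i‖ ^ 2) (by simp)

theorem sq0 (k : K) : 0 ≤ H356R3.NS.sq k := by
  unfold H356R3.NS.sq
  positivity

theorem th_up (n : ℕ) (k : K) : H356R3.NS.sq k / ((P.R : ℝ) ^ n) ^ 2 * ∑ i, ‖P.X.ψ n k i‖ ^ 2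
    ≤ 3 * ∑ i, ‖P.X.ψ n k i‖ ^ 2 := by
  have hR := R_pos P.wh.wd.hR n
  by_cases hk : P.X.ψ n k = 0
  · rw [hk]; simp
  · have := P.pk.hi n k hk
    have h1 : H356R3.NS.sq k / ((P.R : ℝ) ^ n) ^ 2 ≤ 3 := by rwa [div_le_iff₀ (by positivity)]
    gcongr

theorem th_summ (n : ℕ) : Summable fun k => H356R3.NS.sq k / ((P.R : ℝ) ^ n) ^ 2 * ∑ i, ‖P.X.ψ n k i‖ ^ 2 :=
  ((p_summ P n).mul_left 3).of_nonneg_of_le (fun k => by have := sq0 k; positivity) (th_up P n)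

theorem th_le (n : ℕ) : th P n ≤ 3 := by
  rw [th_eq]
  simp only [qpsi_sq]
  refine ((th_summ P n).tsum_le_tsum (th_up P n) ((p_summ P n).mul_left _)).trans ?_
  rw [tsum_mul_left, pl2, mul_one]

theorem th_ge (n : ℕ) : 1 / 4 ≤ th P n := by
  rw [th_eq]
  simp only [qpsi_sq]
  have hR := R_pos P.wh.wd.hR n
  have h3' : ∀ k : K, 1 / 4 * ∑ i, ‖P.X.ψ n k i‖ ^ 2
      ≤ H356R3.NS.sq k / ((P.R : ℝ) ^ n) ^ 2 * ∑ i, ‖P.X.ψ n k i‖ ^ 2 := by
    intro k
    by_cases hk : P.X.ψ n k = 0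
    · rw [hk]; simp
    · have := P.pk.lo n k hk
      have h1 : 1 / 4 ≤ H356R3.NS.sq k / ((P.R : ℝ) ^ n) ^ 2 := by rwa [le_div_iff₀ (by positivity)]
      gcongr
  refine le_trans ?_ (((p_summ P n).mul_left _).tsum_le_tsum h3' (th_summ P n))
  rw [tsum_mul_left, pl2, mul_one]

/-! ### the equations of the coefficients -/

theorem kT_co0 {u : V → V} (hu : SPV u) :
    ip (KQ (kT P) u u) (P.X.F 0) = -(P.g 0 * (P.δ * P.co u 0 + P.co u 1) * P.co u 1)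
      + eP (P.g 0) 0 P.δ (P.R : ℝ)⁻¹ P.R 0 (P.co u 0) (P.co u 1) 0 (qo P u 0) (qo P u 1) 0 (so P u 0) (so P u 1) := by
  have h1 := kT_form P hu hu (P.X.spv 0)
  simp only [P.co_F, qo_p, mul_zero, sub_zero, zero_sub] at h1
  generalize P.co u = p at h1 ⊢
  generalize qo P u = q at h1 ⊢
  generalize so P u = s at h1 ⊢
  have h2 := hasSum_z
    (A := fun n => -((P.R : ℝ)⁻¹ * P.g n * q n * q (n + 1)) + P.g n * s (n + 1) * p n - P.δ * P.g n * q n * q n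
      + P.δ * P.g n * s n * p n)
    (B := fun n => P.g n * q (n + 1) * q (n + 1) - P.g n * s (n + 1) * p (n + 1)
      + P.δ * P.R * P.g n * q (n + 1) * q n - P.δ * P.g n * s n * p (n + 1)) (h1.congr_fun fun n => by ring)
  rw [h2]
  unfold eP
  simp only [zero_add]
  ring

theorem kT_co1 {u : V → V} (hu : SPV u) (m : ℕ) :
    ip (KQ (kT P) u u) (P.X.F (m + 1)) = P.g m * (P.δ * P.co u m + P.co u (m + 1)) * P.co u m
      - P.g (m + 1) * (P.δ * P.co u (m + 1) + P.co u (m + 2)) * P.co u (m + 2)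
      + eP (P.g (m + 1)) (P.g m) P.δ (P.R : ℝ)⁻¹ P.R (P.co u m) (P.co u (m + 1)) (P.co u (m + 2))
        (qo P u m) (qo P u (m + 1)) (qo P u (m + 2)) (so P u m) (so P u (m + 1)) (so P u (m + 2)) := by
  have h1 := kT_form P hu hu (P.X.spv (m + 1))
  simp only [P.co_F, qo_p, mul_zero, sub_zero, zero_sub] at h1
  generalize P.co u = p at h1 ⊢
  generalize qo P u = q at h1 ⊢
  generalize so P u = s at h1 ⊢
  have h2 := hasSum_s
    (A := fun n => -((P.R : ℝ)⁻¹ * P.g n * q n * q (n + 1)) + P.g n * s (n + 1) * p n - P.δ * P.g n * q n * q n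
      + P.δ * P.g n * s n * p n)
    (B := fun n => P.g n * q (n + 1) * q (n + 1) - P.g n * s (n + 1) * p (n + 1)
      + P.δ * P.R * P.g n * q (n + 1) * q n - P.δ * P.g n * s n * p (n + 1)) (h1.congr_fun fun n => by ring)
  rw [h2]
  have e2 : m + 1 + 1 = m + 2 := rfl
  rw [e2]
  unfold eP
  ring

theorem kT_qo {u : ℝ → V → V} {t : ℝ} (hu : SPV (u t)) (m : ℕ) :
    ip (KQ (kT P) (u t) (u t)) ((qX P).F m)
      = th P m * qi P.g P.δ (P.R : ℝ)⁻¹ P.R (fun k s => P.co (u s) k) (fun k s => qo P (u s) k) m t := by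
  have h1 := kT_form P hu hu ((qX P).spv m)
  simp only [co_q, qo_q, mul_zero, sub_zero, zero_sub] at h1
  have hth : ∀ n, (if m = n then th P n else 0) = th P m * (if m = n then (1 : ℝ) else 0) := by
    intro n
    split_ifs with h
    · rw [h, mul_one]
    · rw [mul_zero]
  simp only [hth] at h1
  cases m with
  | zero =>
    simp only [qi]
    show _ = th P 0 * (P.δ * P.g 0 * (P.co (u t) 1 * qo P (u t) 0 - P.R * (P.co (u t) 0 * qo P (u t) 1)))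
    generalize P.co (u t) = p at h1 ⊢
    generalize qo P (u t) = q at h1 ⊢
    have h2 := hasSum_z
      (A := fun n => (P.R : ℝ)⁻¹ * P.g n * q n * (p (n + 1) * th P 0) - P.g n * q (n + 1) * (p n * th P 0))
      (B := fun n => P.δ * P.g n * q n * (p (n + 1) * th P 0) - P.δ * P.R * P.g n * q (n + 1) * (p n * th P 0))
      (h1.congr_fun fun n => by ring)
    rw [h2]
    simp only [zero_add]
    ring
  | succ m =>
    simp only [qi]
    show _ = th P (m + 1) * (P.g m * ((P.R : ℝ)⁻¹ * (P.co (u t) (m + 1) * qo P (u t) m) - P.co (u t) m * qo P (u t) (m + 1))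
      + P.δ * P.g (m + 1) * (P.co (u t) (m + 2) * qo P (u t) (m + 1) - P.R * (P.co (u t) (m + 1) * qo P (u t) (m + 2))))
    generalize P.co (u t) = p at h1 ⊢
    generalize qo P (u t) = q at h1 ⊢
    have h2 := hasSum_s
      (A := fun n => (P.R : ℝ)⁻¹ * P.g n * q n * (p (n + 1) * th P (m + 1)) - P.g n * q (n + 1) * (p n * th P (m + 1)))
      (B := fun n => P.δ * P.g n * q n * (p (n + 1) * th P (m + 1))
        - P.δ * P.R * P.g n * q (n + 1) * (p n * th P (m + 1)))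
      (h1.congr_fun fun n => by ring)
    rw [h2]
    have e2 : m + 1 + 1 = m + 2 := rfl
    rw [e2]
    ring

/-! ### the double curl and the Laplacian -/

/-- The Laplacian of a packet tested against a field. -/
theorem fm_lap {R : ℕ} {ℓ : ℕ → ℝ} (X : Fm R ℓ) {v : V → V} (hv : SPV v) (n : ℕ) {μ D M : ℝ} (hD : 0 ≤ D) (hM : 0 ≤ M)
    (h : ∀ k, X.ψ n k ≠ 0 → |μ - 4 * Real.pi ^ 2 * H356R3.NS.sq k| ≤ D) (h2 : ∑' k, ∑ i, ‖X.ψ n k i‖ ^ 2 ≤ M ^ 2) :
    |ip v (lap (X.F n)) + μ * X.cs v n| ≤ D * M * Real.sqrt (energy v) := by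
  have hFs : SPV (X.F n) := X.spv n
  have e1 : ip v (lap (X.F n)) + μ * X.cs v n = ip v (fd (df μ (X.ψ n))) := by
    have h1 : lap (X.F n) + μ • X.F n = fd (df μ (X.ψ n)) := by
      funext x
      exact lap_fd (X.fin n) μ x
    rw [← h1, ip_comm v (lap (X.F n) + μ • X.F n), ip_add (SPV.lap hFs).cont (hFs.cont.const_smul μ) hv.cont,
      ip_smul, ip_comm (lap (X.F n)), ip_comm (X.F n)]
    rfl
  rw [e1]
  have h3 : energy (fd (df μ (X.ψ n))) ≤ D ^ 2 * M ^ 2 := df_energy' (X.fin n) (X.sym n) hD h h2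
  have h4 := ip_cs hv (SPV_fd (fin_RD (df_fin (X.fin n) μ)))
  have h5 : Real.sqrt (energy (fd (df μ (X.ψ n)))) ≤ D * M :=
    Real.sqrt_le_iff.2 ⟨by positivity, h3.trans (by rw [mul_pow])⟩
  calc _ ≤ _ := h4
    _ ≤ Real.sqrt (energy v) * (D * M) := by gcongr
    _ = _ := by ring

theorem pX_lap {v : V → V} (hv : SPV v) (n : ℕ) :
    |ip v (lap (P.X.F n)) + 4 * Real.pi ^ 2 * ((P.R : ℝ) ^ n) ^ 2 * P.co v n|
      ≤ 280 * ((P.R : ℝ) ^ n * wd P.L n) * Real.sqrt (energy v) := by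
  have hR0 := R_pos P.wh.wd.hR n
  have hwp := P.wh.wd.pos n
  have h1 := fm_lap P.X hv n (μ := 4 * Real.pi ^ 2 * ((P.R : ℝ) ^ n) ^ 2) (D := 280 * ((P.R : ℝ) ^ n * wd P.L n)) (M := 1)
    (by positivity) zero_le_one (P.pk.sq n) (by rw [pl2]; norm_num)
  rw [mul_one] at h1
  exact h1

/-- The Laplacian of the curl of a packet tested against a field. -/
theorem qX_lap {v : V → V} (hv : SPV v) (n : ℕ) :
    |ip v (lap ((qX P).F n)) + 4 * Real.pi ^ 2 * ((P.R : ℝ) ^ n) ^ 2 * qo P v n|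
      ≤ 560 * ((P.R : ℝ) ^ n * wd P.L n) * Real.sqrt (energy v) := by
  have hR0 := R_pos P.wh.wd.hR n
  have hwp := P.wh.wd.pos n
  have h1 := fm_lap (qX P) hv n (μ := 4 * Real.pi ^ 2 * ((P.R : ℝ) ^ n) ^ 2) (D := 280 * ((P.R : ℝ) ^ n * wd P.L n)) (M := 2)
    (by positivity) zero_le_two (fun k hk => P.pk.sq n k fun h0 => hk (by
      show cl _ k (P.X.ψ n k) = 0
      rw [h0, cl_zero])) (by rw [← th_eq]; have := th_le P n; linarith)
  refine h1.trans (le_of_eq ?_)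
  ring

theorem sX_lap (n : ℕ) : (sX P).F n = (-(1 / (4 * Real.pi ^ 2 * ((P.R : ℝ) ^ n) ^ 2))) • lap (P.X.F n) := by
  have hR := R_pos P.wh.wd.hR n
  have hpi := Real.pi_pos
  funext x
  have h1 := lap_fd (P.X.fin n) 0 x
  rw [zero_smul, add_zero] at h1
  rw [Pi.smul_apply]
  have h2 : lap (P.X.F n) x = fd (df 0 (P.X.ψ n)) x := h1
  rw [h2]
  funext i
  rw [Pi.smul_apply, smul_eq_mul]
  show (fs (fun k => (sX P).ψ n k i) x).re = _ * (fs (fun k => df 0 (P.X.ψ n) k i) x).re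
  rw [← Complex.re_ofReal_mul, ← fs_smul']
  congr 2
  funext k
  unfold df
  rw [spsi_eq, Pi.smul_apply, Pi.smul_apply, Complex.real_smul, Complex.real_smul, ← mul_assoc, ← Complex.ofReal_mul]
  congr 2
  field_simp
  ring

/-- The double curl is close to the packet. -/
theorem so_close {v : V → V} (hv : SPV v) (n : ℕ) :
    |so P v n - P.co v n| ≤ 1 / (4 * Real.pi ^ 2 * ((P.R : ℝ) ^ n) ^ 2)
      * (280 * ((P.R : ℝ) ^ n * wd P.L n) * Real.sqrt (energy v)) := by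
  have hR := R_pos P.wh.wd.hR n
  have hpi := Real.pi_pos
  have h1 : so P v n = -(1 / (4 * Real.pi ^ 2 * ((P.R : ℝ) ^ n) ^ 2)) * ip v (lap (P.X.F n)) := by
    unfold so Fm.cs
    rw [sX_lap, ip_comm, ip_smul, ip_comm]
  have h2 := pX_lap P hv n
  set μ := 4 * Real.pi ^ 2 * ((P.R : ℝ) ^ n) ^ 2 with hμ
  have hμ0 : 0 < μ := by positivity
  have e : so P v n - P.co v n = -(1 / μ) * (ip v (lap (P.X.F n)) + μ * P.co v n) := by
    rw [h1]
    field_simp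
    ring
  rw [e, abs_mul, abs_neg, abs_of_pos (by positivity)]
  gcongr

end Pool.Agent.N980.WT
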