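import Pool.Agent.N980.WT.Sc3
import Pool.Agent.N980.WT.Coef

/-!
The family of packets; none of the coordinates of their frequencies vanishes.
-/

open MeasureTheory Set Filter Topology
open scoped ContDiff

set_option linter.unusedVariables false

namespace Pool.Agent.N980.WT

open Pool.Agent.N980.NU
open Pool.Agent.N980.WP
open Pool.Agent.N980.WQ
open Pool.Agent.N980.CB (one_le_R R_pos)
open Pool.Agent.H356R3.NS (K C3 E3 R3 ex SN Sym RD TT SF SFam Fam cf' at' nk pw fj dS Bf dt)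

/-- The conditions on the widths. -/
structure WL (R : ℕ) (L L' : ℕ → ℕ) (ℓ : ℕ → ℝ) : Prop where
  w : Wd R ℓ
  hR : 4 ≤ R
  h8 : ∀ n, 8 * L n ≤ R ^ n
  hle : ∀ n, L' n ≤ L n
  hℓ : ∀ n, ℓ n = ((L n : ℝ) + 1) * Real.sqrt ((L' n : ℝ) + 1)

variable {R : ℕ} {L L' : ℕ → ℕ} {ℓ : ℕ → ℝ}

theorem WL.pos (h : WL R L L' ℓ) (n : ℕ) : 0 < R ^ n := Nat.pow_pos (by have := h.hR; omega)

theorem WL.lt (h : WL R L L' ℓ) (n : ℕ) : L n < R ^ n := by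
  have h1 := h.h8 n
  have h2 := h.pos n
  omega

theorem WL.ℓsq (h : WL R L L' ℓ) (n : ℕ) : ℓ n ^ 2 = ((L n : ℝ) + 1) ^ 2 * ((L' n : ℝ) + 1) := by
  rw [h.hℓ, mul_pow, Real.sq_sqrt (by positivity)]

/-- The support of the coefficients. -/
theorem WL.supp (h : WL R L L' ℓ) {n : ℕ} {k : K} (hk : rc (R ^ n) (L n) (L' n) k ≠ 0) :
    (R : ℝ) ^ n - L n ≤ |(k 0 : ℝ)| ∧ |(k 0 : ℝ)| ≤ (R : ℝ) ^ n + L n ∧ 1 ≤ |(k 1 : ℝ)| ∧ |(k 1 : ℝ)| ≤ 2 * L n + 1 ∧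
      1 ≤ |(k 2 : ℝ)| ∧ |(k 2 : ℝ)| ≤ 2 * L n + 1 := by
  obtain ⟨h1, h2, h3, h4, h5, h6⟩ := rc_supp hk
  have h7 : (L' n : ℝ) ≤ L n := by exact_mod_cast h.hle n
  have c : ∀ a b : ℤ, a ≤ b → (a : ℝ) ≤ (b : ℝ) := fun a b hab => by exact_mod_cast hab
  have e1 := c _ _ h1
  have e2 := c _ _ h2
  have e3 := c _ _ h3
  have e4 := c _ _ h4
  have e5 := c _ _ h5
  have e6 := c _ _ h6
  push_cast at e1 e2 e3 e4 e5 e6
  exact ⟨e1, e2, e3, e4, e5, by linarith⟩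

theorem WL.cases (h : WL R L L' ℓ) (n : ℕ) : (1 : ℝ) ≤ (R : ℝ) ^ n ∧ 8 * (L n : ℝ) ≤ (R : ℝ) ^ n ∧
    ((L n : ℝ) = 0 ∨ 8 ≤ (R : ℝ) ^ n) := by
  have h1 := h.pos n
  have h2 := h.h8 n
  refine ⟨by exact_mod_cast h1, by exact_mod_cast h2, ?_⟩
  rcases Nat.eq_zero_or_pos (L n) with h3 | h3
  · left; rw [h3]; simp
  · right
    have : 8 ≤ R ^ n := by omega
    exact_mod_cast this

theorem sq3 (k : K) : H356R3.NS.sq k = |(k 0 : ℝ)| ^ 2 + |(k 1 : ℝ)| ^ 2 + |(k 2 : ℝ)| ^ 2 := by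
  unfold H356R3.NS.sq
  rw [Fin.sum_univ_three, sq_abs, sq_abs, sq_abs]

theorem WL.lo (h : WL R L L' ℓ) {n : ℕ} {k : K} (hk : rc (R ^ n) (L n) (L' n) k ≠ 0) :
    1 / 4 * ((R : ℝ) ^ n) ^ 2 ≤ (k 0 : ℝ) ^ 2 := by
  obtain ⟨h1, h2, h3, h4, h5, h6⟩ := h.supp hk
  obtain ⟨a1, a2, a3⟩ := h.cases n
  rw [← sq_abs (k 0 : ℝ)]
  nlinarith [abs_nonneg (k 0 : ℝ)]

theorem WL.diff (h : WL R L L' ℓ) {n : ℕ} {k : K} (hk : rc (R ^ n) (L n) (L' n) k ≠ 0) :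
    |((R : ℝ) ^ n) ^ 2 - H356R3.NS.sq k| ≤ 5 * ((R : ℝ) ^ n * ((L n : ℝ) + 1)) := by
  obtain ⟨h1, h2, h3, h4, h5, h6⟩ := h.supp hk
  obtain ⟨a1, a2, a3⟩ := h.cases n
  rw [sq3]
  set N := (R : ℝ) ^ n
  set l := (L n : ℝ)
  have hl0 : 0 ≤ l := Nat.cast_nonneg _
  set x := |(k 0 : ℝ)|
  set y := |(k 1 : ℝ)|
  set z := |(k 2 : ℝ)|
  have hx : 0 ≤ x := abs_nonneg _
  have b1 : (N - l) ^ 2 ≤ x ^ 2 := pow_le_pow_left₀ (by linarith) h1 2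
  have b2 : x ^ 2 ≤ (N + l) ^ 2 := pow_le_pow_left₀ hx h2 2
  have b3 : y ^ 2 ≤ (2 * l + 1) ^ 2 := pow_le_pow_left₀ (by linarith) h4 2
  have b4 : z ^ 2 ≤ (2 * l + 1) ^ 2 := pow_le_pow_left₀ (by linarith) h6 2
  have b5 : 0 ≤ y ^ 2 := sq_nonneg y
  have b6 : 0 ≤ z ^ 2 := sq_nonneg z
  have hNl : 0 ≤ N * l := by positivity
  rw [abs_le]
  rcases a3 with a3 | a3
  · rw [a3] at b1 b2 b3 b4 ⊢
    constructor <;> nlinarith
  · have c1 : 8 * l ≤ N * l := by nlinarith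
    have c2 : 8 * l ^ 2 ≤ N * l := by nlinarith
    constructor <;> nlinarith

theorem WL.hi (h : WL R L L' ℓ) {n : ℕ} {k : K} (hk : rc (R ^ n) (L n) (L' n) k ≠ 0) :
    H356R3.NS.sq k ≤ 3 * ((R : ℝ) ^ n) ^ 2 := by
  obtain ⟨h1, h2, h3, h4, h5, h6⟩ := h.supp hk
  obtain ⟨a1, a2, a3⟩ := h.cases n
  rw [sq3]
  set N := (R : ℝ) ^ n
  set l := (L n : ℝ)
  have hl0 : 0 ≤ l := Nat.cast_nonneg _
  set x := |(k 0 : ℝ)|
  set y := |(k 1 : ℝ)|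
  set z := |(k 2 : ℝ)|
  have hx : 0 ≤ x := abs_nonneg _
  have b2 : x ^ 2 ≤ (N + l) ^ 2 := pow_le_pow_left₀ hx h2 2
  have b3 : y ^ 2 ≤ (2 * l + 1) ^ 2 := pow_le_pow_left₀ (by linarith) h4 2
  have b4 : z ^ 2 ≤ (2 * l + 1) ^ 2 := pow_le_pow_left₀ (by linarith) h6 2
  rcases a3 with a3 | a3
  · rw [a3] at b2 b3 b4
    nlinarith
  · have c1 : 8 * l ≤ N * l := by nlinarith
    have c2 : 8 * l ^ 2 ≤ N * l := by nlinarith
    have c3 : 8 * (N * l) ≤ N * N := by nlinarith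
    nlinarith

/-! ### the normalization -/

/-- The square of the norm of the unnormalized packet. -/
noncomputable def S2 (r : ℝ) (N L L' : ℕ) : ℝ :=
  ∑' k : K, ((k 0 : ℝ) ^ 2 + (k 2 : ℝ) ^ 2) / r ^ 2 * rc N L L' k ^ 2

theorem rc_summ {E : Type*} [NormedAddCommGroup E] (N L L' : ℕ) (f : K → ℝ → E) (hf : ∀ k, f k 0 = 0) :
    Summable fun k => f k (rc N L L' k) := by
  refine summable_of_hasFiniteSupport ((rc_fin N L L').subset fun k hk => ?_)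
  intro h0
  exact hk (by simp only [h0, hf])

theorem WL.S2_ge (h : WL R L L' ℓ) (n : ℕ) : 2 * (fS (L n) ^ 2 * fS (L' n)) ≤ S2 ((R : ℝ) ^ n) (R ^ n) (L n) (L' n) := by
  have hR := R_pos h.w.hR n
  have h1 := rc_l2 (L' := L' n) (h.lt n)
  have e : 2 * (fS (L n) ^ 2 * fS (L' n)) = ∑' k : K, 1 / 4 * rc (R ^ n) (L n) (L' n) k ^ 2 := by
    rw [tsum_mul_left, h1]; ring
  rw [e]
  unfold S2
  refine Summable.tsum_le_tsum (fun k => ?_) (rc_summ _ _ _ (fun k z => 1 / 4 * z ^ 2) (by simp))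
    (rc_summ _ _ _ (fun k z => ((k 0 : ℝ) ^ 2 + (k 2 : ℝ) ^ 2) / ((R : ℝ) ^ n) ^ 2 * z ^ 2) (by simp))
  by_cases hk : rc (R ^ n) (L n) (L' n) k = 0
  · rw [hk]; simp
  · have h2 := h.lo hk
    refine mul_le_mul_of_nonneg_right ?_ (sq_nonneg _)
    rw [le_div_iff₀ (by positivity)]
    nlinarith [sq_nonneg (k 2 : ℝ)]

theorem WL.S2_ge' (h : WL R L L' ℓ) (n : ℕ) : (ℓ n / 2) ^ 2 ≤ S2 ((R : ℝ) ^ n) (R ^ n) (L n) (L' n) := by
  refine le_trans ?_ (h.S2_ge n)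
  have h1 := fS_ge (L n)
  have h2 := fS_ge (L' n)
  rw [div_pow, h.ℓsq]
  have h3 : (((L n : ℝ) + 1) / 2) ^ 2 ≤ fS (L n) ^ 2 := pow_le_pow_left₀ (by positivity) h1 2
  calc ((L n : ℝ) + 1) ^ 2 * ((L' n : ℝ) + 1) / 2 ^ 2 = 2 * ((((L n : ℝ) + 1) / 2) ^ 2 * (((L' n : ℝ) + 1) / 2)) := by ring
    _ ≤ 2 * (fS (L n) ^ 2 * fS (L' n)) := by gcongr

theorem WL.S2_pos (h : WL R L L' ℓ) (n : ℕ) : 0 < S2 ((R : ℝ) ^ n) (R ^ n) (L n) (L' n) :=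
  lt_of_lt_of_le (by have := h.w.pos n; positivity) (h.S2_ge' n)

/-- The normalization factor. -/
noncomputable def am (R : ℕ) (L L' : ℕ → ℕ) (n : ℕ) : ℝ := 1 / Real.sqrt (S2 ((R : ℝ) ^ n) (R ^ n) (L n) (L' n))

theorem WL.am_pos (h : WL R L L' ℓ) (n : ℕ) : 0 < am R L L' n := by
  unfold am
  have := Real.sqrt_pos.2 (h.S2_pos n)
  positivity

theorem WL.am_le (h : WL R L L' ℓ) (n : ℕ) : am R L L' n ≤ 2 / ℓ n := by
  unfold am
  have hl := h.w.pos n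
  have h1 : ℓ n / 2 ≤ Real.sqrt (S2 ((R : ℝ) ^ n) (R ^ n) (L n) (L' n)) := Real.le_sqrt_of_sq_le (h.S2_ge' n)
  rw [div_le_div_iff₀ (Real.sqrt_pos.2 (h.S2_pos n)) hl]
  linarith

theorem WL.am_sq (h : WL R L L' ℓ) (n : ℕ) : am R L L' n ^ 2 * S2 ((R : ℝ) ^ n) (R ^ n) (L n) (L' n) = 1 := by
  unfold am
  rw [div_pow, Real.sq_sqrt (h.S2_pos n).le, one_pow, one_div, inv_mul_cancel₀ (h.S2_pos n).ne']

/-! ### the potentials -/

theorem norm_v1 (z : ℂ) : ‖(![0, z, 0] : C3)‖ = ‖z‖ := by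
  apply le_antisymm
  · rw [pi_norm_le_iff_of_nonneg (norm_nonneg _)]
    intro i
    fin_cases i
    · simp
    · exact le_rfl
    · simp
  · exact norm_le_pi_norm (![0, z, 0] : C3) 1

/-- The coefficients of the potentials. -/
noncomputable def φψ (R : ℕ) (L L' : ℕ → ℕ) (n : ℕ) (k : K) : C3 :=
  ![0, ((am R L L' n * rc (R ^ n) (L n) (L' n) k : ℝ) : ℂ), 0]

theorem φψ_ne {n : ℕ} {k : K} (hk : φψ R L L' n k ≠ 0) : rc (R ^ n) (L n) (L' n) k ≠ 0 := by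
  intro h0
  apply hk
  unfold φψ
  rw [h0]
  funext i
  fin_cases i <;> simp

theorem WL.φnorm (h : WL R L L' ℓ) (n : ℕ) (k : K) : ‖φψ R L L' n k‖ = am R L L' n * rc (R ^ n) (L n) (L' n) k := by
  unfold φψ
  rw [norm_v1, Complex.norm_real, Real.norm_of_nonneg (mul_nonneg (h.am_pos n).le (rc_nonneg _ _ _ _))]

/-- The family of the potentials. -/
noncomputable def Φ (h : WL R L L' ℓ) : Fm R ℓ where
  ψ := φψ R L L'
  L := lev R
  c := 16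
  lvn := fun k => by unfold lev; simp
  lv := fun n k hk => by
    have hp := φψ_ne hk
    obtain ⟨h1, h2, h3, h4, h5, h6⟩ := h.supp hp
    obtain ⟨a1, a2, a3⟩ := h.cases n
    have e1 : R ^ n ≤ 2 * (k 0).natAbs := by
      have : ((R ^ n : ℕ) : ℝ) ≤ ((2 * (k 0).natAbs : ℕ) : ℝ) := by
        push_cast
        rw [natAbs_cast]
        linarith
      exact_mod_cast this
    have e2 : 2 * (k 0).natAbs ≤ 3 * R ^ n := by
      have : ((2 * (k 0).natAbs : ℕ) : ℝ) ≤ ((3 * R ^ n : ℕ) : ℝ) := by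
        push_cast
        rw [natAbs_cast]
        linarith
      exact_mod_cast this
    refine ⟨lev_eq h.hR e1 e2, by linarith, ?_⟩
    simp only [pw, H356R3.NS.l1, Fin.sum_univ_three]
    linarith
  fin := fun n => (rc_fin (R ^ n) (L n) (L' n)).subset fun k hk => φψ_ne hk
  sym := fun n k i => by
    unfold φψ
    rw [rc_neg]
    fin_cases i
    · simp
    · show ((_ : ℝ) : ℂ) = star ((_ : ℝ) : ℂ)
      simp
    · simp
  sup := fun n k => by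
    rw [h.φnorm]
    have h1 := h.am_le n
    have h2 := rc_le (R ^ n) (L n) (L' n) k
    have h3 := rc_nonneg (R ^ n) (L n) (L' n) k
    have hl := h.w.pos n
    calc am R L L' n * rc (R ^ n) (L n) (L' n) k ≤ 2 / ℓ n * 8 := by gcongr
      _ = 16 / ℓ n := by ring
  l1 := fun n => by
    simp only [h.φnorm]
    rw [tsum_mul_left, rc_l1, ← h.ℓsq]
    have h1 := h.am_le n
    have hl := h.w.pos n
    calc am R L L' n * (8 * ℓ n ^ 2) ≤ 2 / ℓ n * (8 * ℓ n ^ 2) := by gcongr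
      _ = 16 * ℓ n := by field_simp; ring
  l2 := fun n => by
    have e : ∀ k : K, ∑ i, ‖φψ R L L' n k i‖ ^ 2 = am R L L' n ^ 2 * rc (R ^ n) (L n) (L' n) k ^ 2 := by
      intro k
      rw [Fin.sum_univ_three]
      unfold φψ
      simp only [Matrix.cons_val_zero, Matrix.cons_val_one, Matrix.cons_val, norm_zero, Complex.norm_real,
        Real.norm_eq_abs, sq_abs]
      ring
    simp only [e]
    rw [tsum_mul_left, rc_l2 (h.lt n)]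
    have h1 := h.S2_ge n
    have h2 := h.am_sq n
    have h3 : 0 ≤ am R L L' n ^ 2 := sq_nonneg _
    nlinarith

/-- The family of the packets. -/
noncomputable def X3 (h : WL R L L' ℓ) : Fm R ℓ := crl (Φ h) h.w

theorem X3_ψ (h : WL R L L' ℓ) (n : ℕ) (k : K) : (X3 h).ψ n k = cl ((R : ℝ) ^ n) k (φψ R L L' n k) := rfl

theorem X3_ne (h : WL R L L' ℓ) {n : ℕ} {k : K} (hk : (X3 h).ψ n k ≠ 0) : rc (R ^ n) (L n) (L' n) k ≠ 0 := by
  refine φψ_ne (L := L) (L' := L') fun h0 => hk ?_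
  rw [X3_ψ, h0, cl_zero]

theorem X3_dv (h : WL R L L' ℓ) : (X3 h).Dv := crl_Dv (Φ h) h.w

theorem cl_v1 (r : ℝ) (k : K) (b : ℝ) : cl r k ![0, (b : ℂ), 0]
    = ![-(Complex.I * (k 2 : ℂ) * b / r), 0, Complex.I * (k 0 : ℂ) * b / r] := by
  funext i
  fin_cases i
  · simp [cl]; ring
  · simp [cl]
  · simp [cl]; ring

theorem X3_sq (h : WL R L L' ℓ) (n : ℕ) (k : K) : ∑ i, ‖(X3 h).ψ n k i‖ ^ 2
    = am R L L' n ^ 2 * (((k 0 : ℝ) ^ 2 + (k 2 : ℝ) ^ 2) / ((R : ℝ) ^ n) ^ 2 * rc (R ^ n) (L n) (L' n) k ^ 2) := by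
  rw [X3_ψ]
  unfold φψ
  rw [cl_v1, Fin.sum_univ_three]
  simp only [Matrix.cons_val_zero, Matrix.cons_val_one, Matrix.cons_val, norm_neg, norm_div, norm_mul, Complex.norm_I,
    one_mul, Complex.norm_intCast, norm_zero, Complex.norm_real, Real.norm_eq_abs]
  simp only [div_pow, mul_pow, sq_abs]
  ring

theorem X3_l2 (h : WL R L L' ℓ) (n : ℕ) : ∑' k, ∑ i, ‖(X3 h).ψ n k i‖ ^ 2 = 1 := by
  simp only [X3_sq]
  rw [tsum_mul_left]
  exact h.am_sq n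

theorem X3_on (h : WL R L L' ℓ) (m n : ℕ) : (X3 h).co ((X3 h).ψ m) n = if m = n then 1 else 0 := by
  unfold Fm.co
  by_cases hmn : m = n
  · subst hmn
    rw [if_pos rfl, tsum_congr fun k => sum_sq ((X3 h).ψ m k), ← Complex.ofReal_tsum, Complex.ofReal_re, X3_l2]
  · rw [if_neg hmn]
    have : ∀ k : K, ∑ i, (X3 h).ψ m k i * star ((X3 h).ψ n k i) = 0 := by
      intro k
      by_cases h1 : (X3 h).ψ m k = 0
      · rw [h1]; simp
      · by_cases h2 : (X3 h).ψ n k = 0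
        · rw [h2]; simp
        · exact absurd (((X3 h).lv m k h1).1.symm.trans ((X3 h).lv n k h2).1) hmn
    rw [tsum_congr this, tsum_zero, Complex.zero_re]

theorem X3_pq (h : WL R L L' ℓ) (n : ℕ) (k : K) :
    ∑ i, (X3 h).ψ n k i * star (cl ((R : ℝ) ^ n) k ((X3 h).ψ n k) i) = 0 := by
  rw [X3_ψ]
  unfold φψ
  rw [cl_v1, Fin.sum_univ_three]
  simp only [cl, Matrix.cons_val_zero, Matrix.cons_val_one, Matrix.cons_val, star_div₀, star_mul',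
      star_sub, star_neg, Complex.star_def, Complex.conj_I, Complex.conj_ofReal, map_intCast, map_zero, mul_zero, zero_mul]
  ring

end Pool.Agent.N980.WT
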