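import Pool.Agent.N980.WQ.Ql

/-!
The second derivative of the Fejér kernel; modulated kernels.
-/

open MeasureTheory Set Filter Topology
open scoped ContDiff

set_option linter.unusedVariables false

namespace Pool.Agent.N980.WT

open Pool.Agent.N980.NU
open Pool.Agent.N980.WP
open Pool.Agent.N980.WQ

/-- The second derivative of the kernel. -/
noncomputable def fejE (L : ℕ) (y : ℝ) : ℝ :=
  ∑ j ∈ Finset.Icc (-(L : ℤ)) L, fw L j * (-(Real.cos (2 * Real.pi * j * y) * (2 * Real.pi * j)) * (2 * Real.pi * j))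

theorem fejD_deriv (L : ℕ) (y : ℝ) : HasDerivAt (fejD L) (fejE L y) y := by
  unfold fejD fejE
  refine HasDerivAt.fun_sum fun j _ => ?_
  have h1 : HasDerivAt (fun y : ℝ => 2 * Real.pi * j * y) (2 * Real.pi * j) y := by
    simpa using (hasDerivAt_id' y).const_mul (2 * Real.pi * (j : ℝ))
  exact ((h1.sin.fun_neg).mul_const _).const_mul _

theorem fejE_cont (L : ℕ) : Continuous (fejE L) := by unfold fejE; fun_prop

theorem fejE_sup (L : ℕ) (y : ℝ) : |fejE L y| ≤ (2 * Real.pi) ^ 2 * ((L : ℝ) + 1) ^ 3 := by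
  have hpi := Real.pi_pos
  unfold fejE
  refine (Finset.abs_sum_le_sum_abs _ _).trans ?_
  have h1 : ∀ j ∈ Finset.Icc (-(L : ℤ)) L,
      |fw L j * (-(Real.cos (2 * Real.pi * j * y) * (2 * Real.pi * j)) * (2 * Real.pi * j))|
      ≤ fw L j * ((2 * Real.pi) ^ 2 * ((L : ℝ) + 1) ^ 2) := by
    intro j hj
    rw [Finset.mem_Icc] at hj
    have h2 : |(j : ℝ)| ≤ L := by
      have : |j| ≤ (L : ℤ) := abs_le.2 ⟨by omega, by omega⟩
      have h3 : ((|j| : ℤ) : ℝ) ≤ ((L : ℤ) : ℝ) := by exact_mod_cast this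
      push_cast at h3
      exact h3
    have e : fw L j * (-(Real.cos (2 * Real.pi * j * y) * (2 * Real.pi * j)) * (2 * Real.pi * j))
        = -(fw L j * (Real.cos (2 * Real.pi * j * y) * ((2 * Real.pi) ^ 2 * |(j : ℝ)| ^ 2))) := by
      rw [sq_abs]; ring
    rw [e, abs_neg, abs_mul, abs_mul, abs_of_nonneg (fw_nonneg L j),
      abs_of_nonneg (by positivity : 0 ≤ (2 * Real.pi) ^ 2 * |(j : ℝ)| ^ 2)]
    have h4 := Real.abs_cos_le_one (2 * Real.pi * j * y)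
    have h5 := fw_nonneg L j
    refine mul_le_mul_of_nonneg_left ?_ h5
    have h6 : |(j : ℝ)| ≤ (L : ℝ) + 1 := by linarith
    calc |Real.cos (2 * Real.pi * j * y)| * ((2 * Real.pi) ^ 2 * |(j : ℝ)| ^ 2)
        ≤ 1 * ((2 * Real.pi) ^ 2 * ((L : ℝ) + 1) ^ 2) := by gcongr
      _ = _ := by ring
  refine (Finset.sum_le_sum h1).trans ?_
  rw [← Finset.sum_mul, fw_sum]
  exact le_of_eq (by ring)

/-- The majorant of the second derivative of the kernel. -/
noncomputable def fejN (L : ℕ) (y : ℝ) : ℝ :=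
  (2 * Real.pi) ^ 2 * (((L : ℝ) + 1) ^ 2 * fej L y
    + 2 * (Ca (fun j => j * 1) (L + 1) y ^ 2 + Sa (fun j => j * 1) (L + 1) y ^ 2) / ((L : ℝ) + 1)
    + (Ca (fun j => j * (j * 1)) (L + 1) y ^ 2 + Sa (fun j => j * (j * 1)) (L + 1) y ^ 2) / ((L : ℝ) + 1) ^ 3)

theorem fejE_le (L : ℕ) (y : ℝ) : |fejE L y| ≤ fejN L y := by
  have hpi := Real.pi_pos
  set l : ℝ := (L : ℝ) + 1 with hl
  have hl0 : 0 < l := by positivity
  -- the first derivative
  have hD : ∀ y, fejD L y * l = 4 * Real.pi * (Sa (fun _ => 1) (L + 1) y * Ca (fun j => j * 1) (L + 1) y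
      - Ca (fun _ => 1) (L + 1) y * Sa (fun j => j * 1) (L + 1) y) := by
    intro y
    have h1 : HasDerivAt (fun y => fej L y * l) (fejD L y * l) y := (fej_deriv L y).mul_const l
    have h2 : (fun y => fej L y * l) = fun y => Ca (fun _ => 1) (L + 1) y ^ 2 + Sa (fun _ => 1) (L + 1) y ^ 2 :=
      funext fun y => fej_sq' L y
    rw [h2] at h1
    have h3 := ((Ca_deriv (fun _ => 1) (L + 1) y).pow 2).add ((Sa_deriv (fun _ => 1) (L + 1) y).pow 2)
    rw [h1.unique h3]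
    norm_num
    ring
  have h1 : HasDerivAt (fun y => fejD L y * l) (fejE L y * l) y := (fejD_deriv L y).mul_const l
  rw [funext hD] at h1
  have h2 := (((Sa_deriv (fun _ => 1) (L + 1) y).mul (Ca_deriv (fun j => j * 1) (L + 1) y)).sub
    ((Ca_deriv (fun _ => 1) (L + 1) y).mul (Sa_deriv (fun j => j * 1) (L + 1) y))).const_mul (4 * Real.pi)
  have h3 := h1.unique h2
  have h5 := fej_sq' L y
  rw [← hl] at h5
  unfold fejN
  rw [← hl]
  set C := Ca (fun _ => 1) (L + 1) y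
  set S := Sa (fun _ => 1) (L + 1) y
  set U := Sa (fun j => j * 1) (L + 1) y
  set W := Ca (fun j => j * 1) (L + 1) y
  set U2 := Sa (fun j => j * (j * 1)) (L + 1) y
  set W2 := Ca (fun j => j * (j * 1)) (L + 1) y
  have h6 : fejE L y * l = 8 * Real.pi ^ 2 * (W ^ 2 + U ^ 2 - (S * U2 + C * W2)) := by
    rw [h3]; ring
  have h7 : |W ^ 2 + U ^ 2 - (S * U2 + C * W2)| * (2 * l ^ 2) ≤
      l ^ 4 * (C ^ 2 + S ^ 2) + 2 * l ^ 2 * (W ^ 2 + U ^ 2) + (W2 ^ 2 + U2 ^ 2) := by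
    have a1 : (W ^ 2 + U ^ 2 - (S * U2 + C * W2)) * (2 * l ^ 2) ≤
      l ^ 4 * (C ^ 2 + S ^ 2) + 2 * l ^ 2 * (W ^ 2 + U ^ 2) + (W2 ^ 2 + U2 ^ 2) := by
      nlinarith [sq_nonneg (l ^ 2 * S + U2), sq_nonneg (l ^ 2 * C + W2)]
    have a2 : -(W ^ 2 + U ^ 2 - (S * U2 + C * W2)) * (2 * l ^ 2) ≤
      l ^ 4 * (C ^ 2 + S ^ 2) + 2 * l ^ 2 * (W ^ 2 + U ^ 2) + (W2 ^ 2 + U2 ^ 2) := by
      nlinarith [sq_nonneg (l ^ 2 * S - U2), sq_nonneg (l ^ 2 * C - W2),
        mul_nonneg (sq_nonneg l) (add_nonneg (sq_nonneg W) (sq_nonneg U))]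
    rcases abs_cases (W ^ 2 + U ^ 2 - (S * U2 + C * W2)) with h | h <;> rw [h.1]
    · exact a1
    · exact a2
  have h8 : |fejE L y| * l = 8 * Real.pi ^ 2 * |W ^ 2 + U ^ 2 - (S * U2 + C * W2)| := by
    have e0 : |fejE L y| * l = |fejE L y * l| := by rw [abs_mul, abs_of_pos hl0]
    rw [e0, h6, abs_mul, abs_of_pos (by positivity)]
  have h9 : |fejE L y| * l ^ 3 ≤ (2 * Real.pi) ^ 2 * (l ^ 2 * fej L y + 2 * (W ^ 2 + U ^ 2) / l
      + (W2 ^ 2 + U2 ^ 2) / l ^ 3) * l ^ 3 := by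
    have e1 : |fejE L y| * l ^ 3 = 4 * Real.pi ^ 2 * (|W ^ 2 + U ^ 2 - (S * U2 + C * W2)| * (2 * l ^ 2)) := by
      calc |fejE L y| * l ^ 3 = (|fejE L y| * l) * l ^ 2 := by ring
        _ = _ := by rw [h8]; ring
    have e2 : (2 * Real.pi) ^ 2 * (l ^ 2 * fej L y + 2 * (W ^ 2 + U ^ 2) / l
      + (W2 ^ 2 + U2 ^ 2) / l ^ 3) * l ^ 3
        = 4 * Real.pi ^ 2 * (l ^ 4 * (fej L y * l) + 2 * l ^ 2 * (W ^ 2 + U ^ 2) + (W2 ^ 2 + U2 ^ 2)) := by
      field_simp
      ring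
    rw [e1, e2, h5]
    gcongr
  exact le_of_mul_le_mul_right h9 (by positivity)

theorem fejN_cont (L : ℕ) : Continuous (fejN L) := by
  have h1 := fej_cont L
  have h2 := Ca_cont (fun j => j * 1) (L + 1)
  have h3 := Sa_cont (fun j => j * 1) (L + 1)
  have h4 := Ca_cont (fun j => j * (j * 1)) (L + 1)
  have h5 := Sa_cont (fun j => j * (j * 1)) (L + 1)
  unfold fejN
  fun_prop

theorem fejN_int (L : ℕ) : ∫ y in Icc (0 : ℝ) 1, fejN L y ≤ (4 * Real.pi * ((L : ℝ) + 1)) ^ 2 := by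
  have hpi := Real.pi_pos
  set l : ℝ := (L : ℝ) + 1 with hl
  have hl0 : 0 < l := by positivity
  have h1 := fej_cont L
  have h2 := Ca_cont (fun j => j * 1) (L + 1)
  have h3 := Sa_cont (fun j => j * 1) (L + 1)
  have h4 := Ca_cont (fun j => j * (j * 1)) (L + 1)
  have h5 := Sa_cont (fun j => j * (j * 1)) (L + 1)
  have hj : ∀ j ∈ Finset.range (L + 1), (0 : ℝ) ≤ (j : ℝ) ∧ (j : ℝ) ≤ l := by
    intro j hj
    rw [Finset.mem_range] at hj
    have h5 : (j : ℝ) ≤ L := by exact_mod_cast (by omega : j ≤ L)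
    exact ⟨Nat.cast_nonneg j, by linarith⟩
  have s1 : ∑ j ∈ Finset.range (L + 1), ((j : ℝ) * 1) ^ 2 ≤ l * l ^ 2 := by
    have : ∀ j ∈ Finset.range (L + 1), ((j : ℝ) * 1) ^ 2 ≤ l ^ 2 := by
      intro j h
      obtain ⟨a, b⟩ := hj j h
      rw [mul_one]
      gcongr
    refine (Finset.sum_le_sum this).trans ?_
    rw [Finset.sum_const, Finset.card_range, nsmul_eq_mul]
    push_cast
    exact le_rfl
  have s2 : ∑ j ∈ Finset.range (L + 1), ((j : ℝ) * ((j : ℝ) * 1)) ^ 2 ≤ l * (l * l) ^ 2 := by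
    have : ∀ j ∈ Finset.range (L + 1), ((j : ℝ) * ((j : ℝ) * 1)) ^ 2 ≤ (l * l) ^ 2 := by
      intro j h
      obtain ⟨a, b⟩ := hj j h
      rw [mul_one]
      gcongr
    refine (Finset.sum_le_sum this).trans ?_
    rw [Finset.sum_const, Finset.card_range, nsmul_eq_mul]
    push_cast
    exact le_rfl
  have c1 : Continuous fun y => l ^ 2 * fej L y := by fun_prop
  have c2 : Continuous fun y => 2 * (Ca (fun j => j * 1) (L + 1) y ^ 2 + Sa (fun j => j * 1) (L + 1) y ^ 2) / l := by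
    fun_prop
  have c3 : Continuous fun y => (Ca (fun j => j * (j * 1)) (L + 1) y ^ 2 + Sa (fun j => j * (j * 1)) (L + 1) y ^ 2) / l ^ 3 := by
    fun_prop
  have c12 : Continuous fun y => l ^ 2 * fej L y
      + 2 * (Ca (fun j => j * 1) (L + 1) y ^ 2 + Sa (fun j => j * 1) (L + 1) y ^ 2) / l := by
    fun_prop
  unfold fejN
  rw [← hl]
  rw [integral_const_mul, integral_add (int_Icc c12) (int_Icc c3), integral_add (int_Icc c1) (int_Icc c2),
    integral_const_mul, integral_div, integral_div, integral_const_mul, fejI, sqI, sqI]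
  have e1 : 2 * (∑ j ∈ Finset.range (L + 1), ((j : ℝ) * 1) ^ 2) / l ≤ 2 * l ^ 2 := by
    rw [div_le_iff₀ hl0]; nlinarith
  have e2 : (∑ j ∈ Finset.range (L + 1), ((j : ℝ) * ((j : ℝ) * 1)) ^ 2) / l ^ 3 ≤ l ^ 2 := by
    rw [div_le_iff₀ (by positivity)]; nlinarith
  have e3 : (4 * Real.pi * l) ^ 2 = (2 * Real.pi) ^ 2 * (l ^ 2 * 1 + 2 * l ^ 2 + l ^ 2) := by ring
  rw [e3]
  gcongr

/-! ### functions of one variable -/

/-- The bounds of a concentrated function of one variable. -/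
structure B1 (c l : ℝ) (f : ℝ → ℝ) : Prop where
  cont : Continuous f
  sup : ∀ y, |f y| ≤ c * l
  int : ∫ y in Icc (0 : ℝ) 1, |f y| ≤ c

variable {c c' l : ℝ} {f g : ℝ → ℝ}

theorem B1.c0 (h : B1 c l f) : 0 ≤ c := (integral_nonneg fun _ => abs_nonneg _).trans h.int

theorem B1.add (h : B1 c l f) (h' : B1 c' l g) : B1 (c + c') l (fun y => f y + g y) where
  cont := h.cont.add h'.cont
  sup := fun y => (abs_add_le _ _).trans (by rw [add_mul]; exact add_le_add (h.sup y) (h'.sup y))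
  int := by
    have h1 : ∫ y in Icc (0 : ℝ) 1, |f y + g y| ≤ ∫ y in Icc (0 : ℝ) 1, (|f y| + |g y|) :=
      setIntegral_mono_on (int_Icc (h.cont.add h'.cont).abs) (int_Icc (h.cont.abs.add h'.cont.abs)) measurableSet_Icc
        fun y _ => abs_add_le _ _
    rw [integral_add (int_Icc h.cont.abs) (int_Icc h'.cont.abs)] at h1
    linarith [h.int, h'.int]

theorem B1.mul_bdd (h : B1 c l f) {M : ℝ} (hM : 0 ≤ M) {a : ℝ → ℝ} (ha : Continuous a) (hb : ∀ y, |a y| ≤ M) :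
    B1 (M * c) l (fun y => a y * f y) where
  cont := ha.mul h.cont
  sup := fun y => by
    rw [abs_mul, mul_assoc]
    exact mul_le_mul (hb y) (h.sup y) (abs_nonneg _) hM
  int := by
    have h1 : ∫ y in Icc (0 : ℝ) 1, |a y * f y| ≤ ∫ y in Icc (0 : ℝ) 1, M * |f y| :=
      setIntegral_mono_on (int_Icc (ha.mul h.cont).abs) (int_Icc (h.cont.abs.const_mul M)) measurableSet_Icc
        fun y _ => by
          rw [abs_mul]
          exact mul_le_mul_of_nonneg_right (hb y) (abs_nonneg _)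
    rw [integral_const_mul] at h1
    exact h1.trans (mul_le_mul_of_nonneg_left h.int hM)

theorem B1.mono (h : B1 c l f) (hc : c ≤ c') (hl : 0 ≤ l) : B1 c' l f where
  cont := h.cont
  sup := fun y => (h.sup y).trans (by gcongr)
  int := h.int.trans hc

theorem B1.of_le (hc : Continuous f) {g : ℝ → ℝ} (hg : Continuous g) (hle : ∀ y, |f y| ≤ g y)
    (hs : ∀ y, |f y| ≤ c * l) (hi : ∫ y in Icc (0 : ℝ) 1, g y ≤ c) : B1 c l f where
  cont := hc
  sup := hs
  int := (setIntegral_mono_on (int_Icc hc.abs) (int_Icc hg) measurableSet_Icc fun y _ => hle y).trans hi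

theorem B1_fej (L : ℕ) : B1 1 ((L : ℝ) + 1) (fej L) :=
  B1.of_le (fej_cont L) (fej_cont L) (fun y => (abs_of_nonneg (fej_nonneg L y)).le)
    (fun y => by rw [abs_of_nonneg (fej_nonneg L y), one_mul]; exact fej_le L y) (fejI L).le

theorem B1_fejD (L : ℕ) : B1 (4 * Real.pi * ((L : ℝ) + 1)) ((L : ℝ) + 1) (fejD L) :=
  B1.of_le (fejD_cont L) (fejM_cont L) (fejD_le L) (fun y => (fejD_sup L y).trans (by
    have := Real.pi_pos
    have : (0 : ℝ) < (L : ℝ) + 1 := by positivity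
    nlinarith [mul_pos Real.pi_pos (mul_pos this this)])) (fejM_int L)

theorem B1_fejE (L : ℕ) : B1 ((4 * Real.pi * ((L : ℝ) + 1)) ^ 2) ((L : ℝ) + 1) (fejE L) :=
  B1.of_le (fejE_cont L) (fejN_cont L) (fejE_le L) (fun y => (fejE_sup L y).trans (by
    have hpi := Real.pi_pos
    have h : (0 : ℝ) < (L : ℝ) + 1 := by positivity
    have e : (4 * Real.pi * ((L : ℝ) + 1)) ^ 2 * ((L : ℝ) + 1) = 4 * ((2 * Real.pi) ^ 2 * ((L : ℝ) + 1) ^ 3) := by ring
    rw [e]
    have : 0 ≤ (2 * Real.pi) ^ 2 * ((L : ℝ) + 1) ^ 3 := by positivity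
    linarith)) (fejN_int L)

/-- The modulated kernels and their derivatives. -/
noncomputable def W0 (m L : ℕ) (y : ℝ) : ℝ := Real.cos (2 * Real.pi * (m * y)) * fej L y

noncomputable def W1 (m L : ℕ) (y : ℝ) : ℝ :=
  (-Real.sin (2 * Real.pi * (m * y)) * (2 * Real.pi * m)) * fej L y + Real.cos (2 * Real.pi * (m * y)) * fejD L y

noncomputable def W2 (m L : ℕ) (y : ℝ) : ℝ :=
  ((-(Real.cos (2 * Real.pi * (m * y)) * (2 * Real.pi * m)) * (2 * Real.pi * m)) * fej L y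
    + (-Real.sin (2 * Real.pi * (m * y)) * (2 * Real.pi * m)) * fejD L y)
    + ((-Real.sin (2 * Real.pi * (m * y)) * (2 * Real.pi * m)) * fejD L y
    + Real.cos (2 * Real.pi * (m * y)) * fejE L y)

theorem mod_deriv (m : ℕ) (y : ℝ) : HasDerivAt (fun y : ℝ => 2 * Real.pi * (m * y)) (2 * Real.pi * m) y := by
  simpa using ((hasDerivAt_id' y).const_mul (m : ℝ)).const_mul (2 * Real.pi)

theorem W0_deriv (m L : ℕ) (y : ℝ) : HasDerivAt (W0 m L) (W1 m L y) y :=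
  (mod_deriv m y).cos.mul (fej_deriv L y)

theorem W1_deriv (m L : ℕ) (y : ℝ) : HasDerivAt (W1 m L) (W2 m L y) y :=
  ((((mod_deriv m y).sin.fun_neg).mul_const _).mul (fej_deriv L y)).add ((mod_deriv m y).cos.mul (fejD_deriv L y))

theorem B1_W0 (m L : ℕ) : B1 1 ((L : ℝ) + 1) (W0 m L) := by
  have h := (B1_fej L).mul_bdd zero_le_one (a := fun y => Real.cos (2 * Real.pi * (m * y))) (by fun_prop)
    (fun y => Real.abs_cos_le_one _)
  rw [mul_one] at h
  exact h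

theorem sin_bd (m : ℕ) (y : ℝ) : |-Real.sin (2 * Real.pi * (m * y)) * (2 * Real.pi * m)| ≤ 2 * Real.pi * m := by
  have hpi := Real.pi_pos
  have h := Real.abs_sin_le_one (2 * Real.pi * (m * y))
  rw [abs_mul, abs_neg, abs_of_nonneg (by positivity : (0 : ℝ) ≤ 2 * Real.pi * m)]
  exact mul_le_of_le_one_left (by positivity) h

theorem B1_W1 (m L : ℕ) : B1 (2 * Real.pi * m + 4 * Real.pi * ((L : ℝ) + 1)) ((L : ℝ) + 1) (W1 m L) := by
  have hpi := Real.pi_pos
  have h1 := (B1_fej L).mul_bdd (M := 2 * Real.pi * m) (by positivity)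
    (a := fun y => -Real.sin (2 * Real.pi * (m * y)) * (2 * Real.pi * m)) (by fun_prop) (sin_bd m)
  have h2 := (B1_fejD L).mul_bdd zero_le_one (a := fun y => Real.cos (2 * Real.pi * (m * y))) (by fun_prop)
    (fun y => Real.abs_cos_le_one _)
  rw [mul_one] at h1
  rw [one_mul] at h2
  exact h1.add h2

theorem B1_W2 (m L : ℕ) : B1 ((2 * Real.pi * m + 4 * Real.pi * ((L : ℝ) + 1)) ^ 2) ((L : ℝ) + 1) (W2 m L) := by
  have hpi := Real.pi_pos
  have h1 := (B1_fej L).mul_bdd (M := (2 * Real.pi * m) ^ 2) (by positivity)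
    (a := fun y => -(Real.cos (2 * Real.pi * (m * y)) * (2 * Real.pi * m)) * (2 * Real.pi * m)) (by fun_prop) (fun y => by
      have h := Real.abs_cos_le_one (2 * Real.pi * (m * y))
      have e : -(Real.cos (2 * Real.pi * (m * y)) * (2 * Real.pi * m)) * (2 * Real.pi * m)
          = -(Real.cos (2 * Real.pi * (m * y)) * (2 * Real.pi * m) ^ 2) := by ring
      rw [e, abs_neg, abs_mul, abs_of_nonneg (by positivity : (0 : ℝ) ≤ (2 * Real.pi * m) ^ 2)]
      exact mul_le_of_le_one_left (by positivity) h)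
  have h2 := (B1_fejD L).mul_bdd (M := 2 * Real.pi * m) (by positivity)
    (a := fun y => -Real.sin (2 * Real.pi * (m * y)) * (2 * Real.pi * m)) (by fun_prop) (sin_bd m)
  have h3 := (B1_fejE L).mul_bdd zero_le_one (a := fun y => Real.cos (2 * Real.pi * (m * y))) (by fun_prop)
    (fun y => Real.abs_cos_le_one _)
  have h4 := (h1.add h2).add (h2.add h3)
  have e : (2 * Real.pi * m) ^ 2 * 1 + 2 * Real.pi * m * (4 * Real.pi * ((L : ℝ) + 1))
      + (2 * Real.pi * m * (4 * Real.pi * ((L : ℝ) + 1)) + 1 * (4 * Real.pi * ((L : ℝ) + 1)) ^ 2)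
      = (2 * Real.pi * m + 4 * Real.pi * ((L : ℝ) + 1)) ^ 2 := by ring
  rw [e] at h4
  exact h4

/-! ### products -/

/-- The product of three functions of one variable. -/
def T3 (f g h : ℝ → ℝ) (x : V) : ℝ := f (x 0) * g (x 1) * h (x 2)

theorem cube_prod3 (f g h : ℝ → ℝ) :
    ∫ x in cube, T3 f g h x = (∫ y in Icc (0 : ℝ) 1, f y) * (∫ y in Icc (0 : ℝ) 1, g y) * ∫ y in Icc (0 : ℝ) 1, h y := by
  have h1 : (volume : Measure V).restrict cube = Measure.pi fun _ : Fin 3 => (volume : Measure ℝ).restrict (Icc 0 1) := by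
    have e : cube = Set.pi univ fun _ : Fin 3 => Icc (0 : ℝ) 1 := by
      unfold cube
      rw [← Set.pi_univ_Icc]
      rfl
    rw [e, volume_pi, Measure.restrict_pi_pi]
  rw [h1]
  have h2 : ∀ x : V, T3 f g h x = ∏ i : Fin 3, (![f, g, h] : Fin 3 → ℝ → ℝ) i (x i) := by
    intro x
    rw [Fin.prod_univ_three]
    rfl
  simp only [h2]
  rw [integral_fintype_prod_eq_prod, Fin.prod_univ_three]
  rfl

theorem T3_cont {f g h : ℝ → ℝ} (hf : Continuous f) (hg : Continuous g) (hh : Continuous h) : Continuous (T3 f g h) := by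
  unfold T3
  exact ((hf.comp (continuous_apply 0)).mul (hg.comp (continuous_apply 1))).mul (hh.comp (continuous_apply 2))

theorem T3_sup {f g h : ℝ → ℝ} {c1 c2 c3 l1 l2 l3 : ℝ} (hf : B1 c1 l1 f) (hg : B1 c2 l2 g) (hh : B1 c3 l3 h) (x : V) :
    |T3 f g h x| ≤ c1 * c2 * c3 * (l1 * l2 * l3) := by
  unfold T3
  rw [abs_mul, abs_mul]
  have h1 := hf.sup (x 0)
  have h2 := hg.sup (x 1)
  have h3 := hh.sup (x 2)
  have a1 := (abs_nonneg _).trans h1
  have a2 := (abs_nonneg _).trans h2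
  calc |f (x 0)| * |g (x 1)| * |h (x 2)| ≤ (c1 * l1) * (c2 * l2) * (c3 * l3) := by gcongr
    _ = _ := by ring

theorem T3_int {f g h : ℝ → ℝ} {c1 c2 c3 l1 l2 l3 : ℝ} (hf : B1 c1 l1 f) (hg : B1 c2 l2 g) (hh : B1 c3 l3 h) :
    ∫ x in cube, |T3 f g h x| ≤ c1 * c2 * c3 := by
  have e : ∀ x, |T3 f g h x| = T3 (fun y => |f y|) (fun y => |g y|) (fun y => |h y|) x := by
    intro x
    unfold T3
    rw [abs_mul, abs_mul]
  simp only [e]
  rw [cube_prod3]
  have h1 := hf.int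
  have h2 := hg.int
  have h3 := hh.int
  have a1 : 0 ≤ ∫ y in Icc (0 : ℝ) 1, |f y| := integral_nonneg fun _ => abs_nonneg _
  have a2 : 0 ≤ ∫ y in Icc (0 : ℝ) 1, |g y| := integral_nonneg fun _ => abs_nonneg _
  have a3 : 0 ≤ ∫ y in Icc (0 : ℝ) 1, |h y| := integral_nonneg fun _ => abs_nonneg _
  have b1 := hf.c0
  have b2 := hg.c0
  gcongr

theorem pd_T3 {f g h f' g' h' : ℝ → ℝ} (hf : ∀ y, HasDerivAt f (f' y) y) (hg : ∀ y, HasDerivAt g (g' y) y)
    (hh : ∀ y, HasDerivAt h (h' y) y) (c : ℝ) (x : V) :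
    pd 0 (fun y => c * T3 f g h y) x = c * T3 f' g h x ∧ pd 1 (fun y => c * T3 f g h y) x = c * T3 f g' h x ∧
      pd 2 (fun y => c * T3 f g h y) x = c * T3 f g h' x := by
  have h0 : HasFDerivAt (fun y : V => f (y 0)) (f' (x 0) • ContinuousLinearMap.proj (R := ℝ) (φ := fun _ : Fin 3 => ℝ) 0) x :=
    (hf (x 0)).comp_hasFDerivAt x (hasFDerivAt_apply 0 x)
  have h1 : HasFDerivAt (fun y : V => g (y 1)) (g' (x 1) • ContinuousLinearMap.proj (R := ℝ) (φ := fun _ : Fin 3 => ℝ) 1) x :=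
    (hg (x 1)).comp_hasFDerivAt x (hasFDerivAt_apply 1 x)
  have h2 : HasFDerivAt (fun y : V => h (y 2)) (h' (x 2) • ContinuousLinearMap.proj (R := ℝ) (φ := fun _ : Fin 3 => ℝ) 2) x :=
    (hh (x 2)).comp_hasFDerivAt x (hasFDerivAt_apply 2 x)
  have h3 := ((h0.mul h1).mul h2).const_mul c
  unfold pd
  have e : fderiv ℝ (fun y : V => c * T3 f g h y) x = _ := h3.fderiv
  rw [e]
  unfold T3
  refine ⟨?_, ?_, ?_⟩
  · simp
    left
    ring
  · simp
    left
    ring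
  · simp

end Pool.Agent.N980.WT
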