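import Pool.Agent.N980.WT.Sgn

/-!
Blow-up for an open and dense set of data; operators of both signs.
-/

open MeasureTheory Set Filter Topology
open scoped ContDiff

set_option linter.unusedVariables false

namespace Pool.Agent.N980.WT

open Pool.Agent.N980.NU
open Pool.Agent.N980.WP hiding Sys St Cond
open Pool.Agent.N980.WQ
open Pool.Agent.N980.CB (gG Par zz qq qq_pos Rap energy_nonneg energy_bd dv_add sel)

variable {R : ℕ} {σ κ G ν : ℝ} {X : Fm R (wd (Lw R κ))}

/-- Blow-up before the time `η` for an open and dense set of data. -/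
theorem dense_blowupS (h : PD R σ κ) (hk : 2 * κ ≤ σ - 1) (hG : 0 < G) (hX : PkF h.pc.wh.wd X) {s : ℝ} (hs1 : |s| = 1)
    {Kf : (V → V) → (V → V) → V → V} (hO : Opr Kf) (hKf : ∀ v, SPV v → Kf v v = s • KQ (kT (qm h.pc hG hX)) v v)
    (hν : 0 < ν) {v : V → V} (hv : SPV v)
    (hdv : ∀ x, dv v x = 0) {η : ℝ} (hη : 0 < η) :
    ∃ w : V → V, SPV w ∧ (∀ x, dv w x = 0) ∧ energy (w - v) ≤ η ^ 2 ∧ ∃ r > 0,
      ∀ w' : V → V, SPV w' → (∀ x i, |w' x i - w x i| ≤ r) →
      ∀ (u : ℝ → V → V) (p : ℝ → V → ℝ), u 0 = w' → ¬Sol ν Kf η u p := by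
  have hpi := Real.pi_pos
  have hss := sgn_abs hs1
  have hqq := qq_pos
  have hqv : qq = 1 / 5000 := rfl
  have hD0 : 0 ≤ dd X := dd_nonneg X
  set P := qm h.pc hG hX with hPd
  set Λ := (R : ℝ) ^ σ with hΛd
  set Q := (R : ℝ) ^ (2 - σ + κ) with hQd
  set z := zz Λ with hzd
  have hpar : Par Λ z := h.pc.par
  have hz := hpar.hz
  have hR0 := h.pc.R0
  have hQ1' : 1 ≤ Q := le_trans (by norm_num) h.RQ'
  have hQ0 : 0 < Q := by linarith
  set E : ℝ := 4 * energy v + 4 * η ^ 2 + 6 with hE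
  have hEv := energy_nonneg v
  have hE6 : 6 ≤ E := by nlinarith
  set ℓ : ℝ := 4 * Real.pi ^ 2 * ν with hℓ
  have hℓ0 : 0 < ℓ := by positivity
  have hb0 : 0 < b0 ν G E (dd X) := by
    unfold b0
    have : 0 < G * E := by positivity
    have : 0 ≤ Real.sqrt E := Real.sqrt_nonneg E
    positivity
  have hrapq : Rap R (qo P v) := (qX P).Rap_cs P.wh.wd hv
  obtain ⟨Cq, hCq⟩ := hrapq 1
  have hCq0 : 0 ≤ Cq := le_trans (by positivity) (hCq 0)
  set β : ℝ := 2 * b0 ν G E (dd X) with hβ
  have hβ0 : 0 ≤ β := by positivity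
  set b : ℝ := 8 * β / ℓ + 1 + Cq with hb
  have hb8 : 0 ≤ 8 * β / ℓ := by positivity
  have hb1 : 1 ≤ b := by linarith
  have hbp : 0 < b := by linarith
  have hbC : 1 + Cq ≤ b := by linarith
  have hβb : 8 * β ≤ ℓ * b := by
    rw [hb, mul_add, mul_add, mul_div_cancel₀ _ hℓ0.ne']
    have : 0 ≤ ℓ * Cq := by positivity
    linarith
  -- the threshold
  obtain ⟨N, hN⟩ := N_exists (c := 16 * G * b ^ 2 / b0 ν G E (dd X)) h.H1 h.HP (by positivity)
  have hN' : ∀ k : ℕ, 16 * G * b ^ 2 * HH R σ κ ^ k ≤ b0 ν G E (dd X) * ((R : ℝ) ^ (σ - κ)) ^ (max k N) := by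
    intro k
    have h1 := hN k
    rw [div_mul_eq_mul_div, div_le_iff₀ hb0] at h1
    linarith
  set a : ℝ := η / 8 with ha
  have ha0 : 0 < a := by positivity
  have hrap : Rap R (fun n => s * P.co v n) := by
    have h1 : Rap R (P.X.cs v) := P.X.Rap_cs P.wh.wd hv
    have h2 : P.X.cs v = P.co v := funext fun n => P.cs_eq v n
    rw [h2] at h1
    intro m
    obtain ⟨C, hC⟩ := h1 m
    refine ⟨C, fun n => ?_⟩
    show |s * P.co v n| * _ ≤ C
    rw [abs_mul, hs1, one_mul]
    exact hC n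
  obtain ⟨n, hn, hNn⟩ := ((h.good_ev (G := G) (ℓ := ℓ) (β := β) (b := b) (a := a) (T := η) hG hℓ0
    hbp ha0 hη hrap).and (eventually_ge_atTop N)).exists
  set c0 : ℝ := a - s * P.co v n with hc0
  set c1 : ℝ := qq * a - s * P.co v (n + 1) with hc1
  set w : V → V := v + P.pt n (s * c0) (s * c1) with hw
  have hwS : SPV w := hv.add (P.pt_spv n (s * c0) (s * c1))
  have hcw : ∀ m, s * P.co w m = s * P.co v m + sel n c0 c1 m := by
    intro m
    have e1 : P.co w m = P.co v m + sel n (s * c0) (s * c1) m := by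
      rw [← P.pt_co n (s * c0) (s * c1) m, hw]
      exact ip_add hv.cont (P.pt_spv n (s * c0) (s * c1)).cont (P.X.spv m).cont
    rw [e1, ← sel_smul n s c0 c1 m]
    linear_combination (sel n c0 c1 m) * hss
  have hqw : ∀ m, qo P w m = qo P v m := by
    intro m
    have h1 : qo P w m = qo P v m + qo P (P.pt n (s * c0) (s * c1)) m :=
      ip_add hv.cont (P.pt_spv n (s * c0) (s * c1)).cont ((qX P).spv m).cont
    rw [h1, qo_pt, add_zero]
  have hz16 : 0 < z ^ 16 := pow_pos hz 16
  have hz16' : z ^ 16 ≤ 1 := pow_le_one₀ hz.le hpar.z1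
  have hsmall : z ^ 16 * qq * a / 40 ≤ a / 40 := by
    have h1 : z ^ 16 * qq ≤ 1 := by
      rw [hqv]; nlinarith
    have : z ^ 16 * qq * a ≤ 1 * a := by gcongr
    linarith
  have hwv : w - v = P.pt n (s * c0) (s * c1) := by rw [hw]; abel
  have hen0 : energy (w - v) ≤ η ^ 2 := by
    rw [hwv]
    refine (P.pt_energy n (s * c0) (s * c1)).trans ?_
    have es : ∀ c : ℝ, (s * c) ^ 2 = c ^ 2 := fun c => by linear_combination (c ^ 2) * hss
    rw [es, es]
    have h1 := hn.c1 n le_rfl
    have h2 := hn.c1 (n + 1) (by omega)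
    have h3 : |c0| ≤ a + |s * P.co v n| := by
      have := abs_sub a (s * P.co v n)
      rwa [abs_of_pos ha0] at this
    have h4 : |c1| ≤ qq * a + |s * P.co v (n + 1)| := by
      have := abs_sub (qq * a) (s * P.co v (n + 1))
      rwa [abs_of_pos (by positivity : 0 < qq * a)] at this
    rw [hqv] at h4
    have h5 : |c0| ≤ 2 * a := by linarith
    have h6 : |c1| ≤ a := by linarith
    have h7 : η = 8 * a := by rw [ha]; ring
    rw [← sq_abs c0, ← sq_abs c1, h7]
    nlinarith [abs_nonneg c0, abs_nonneg c1]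
  set r0 := min (1 / 2) (z ^ 16 * qq * a / 40) with hr0
  have hr00 : 0 < r0 := by positivity
  refine ⟨w, hwS, ?_, hen0, r0 / 5400, by positivity, ?_⟩
  · intro x
    rw [hw, dv_add hv (P.pt_spv n (s * c0) (s * c1)), hdv, P.pt_dv, add_zero]
  · intro w' hw' h1 u p hu hs
    have hr1 : r0 ≤ 1 / 2 := min_le_left _ _
    have hr2 : r0 ≤ z ^ 16 * qq * a / 40 := min_le_right _ _
    have e90 : 5400 * (r0 / 5400) = r0 := by ring
    have hcl : ∀ m, |s * P.co w' m - s * P.co w m| ≤ r0 / Q ^ m := by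
      intro m
      have h2 := (close_p h hk hG hX hw'.cont hwS.cont h1 m).1
      rw [e90] at h2
      rw [← mul_sub, abs_mul, hs1, one_mul]
      exact h2
    have hclq : ∀ m, |qo P w' m - qo P v m| ≤ r0 / Q ^ m := by
      intro m
      have h2 := (close_p h hk hG hX hw'.cont hwS.cont h1 m).2
      rw [e90] at h2
      rw [← hqw m]
      exact h2
    have hQ1 : ∀ m : ℕ, 1 ≤ Q ^ m := fun m => one_le_pow₀ hQ1'
    have hcl' : ∀ m, |s * P.co w' m - s * P.co w m| ≤ r0 := fun m => (hcl m).trans (div_le_self hr00.le (hQ1 m))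
    have k0 : |s * P.co w' n - a| ≤ r0 := by
      have := hcl' n
      rw [hcw n] at this
      have e0 : sel n c0 c1 n = c0 := by unfold sel; rw [if_pos rfl]
      rw [e0, hc0] at this
      have e : s * P.co v n + (a - s * P.co v n) = a := by ring
      rwa [e] at this
    have k1 : |s * P.co w' (n + 1) - qq * a| ≤ r0 := by
      have := hcl' (n + 1)
      rw [hcw (n + 1)] at this
      have e0 : sel n c0 c1 (n + 1) = c1 := by unfold sel; rw [if_neg (by omega), if_pos rfl]
      rw [e0, hc1] at this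
      have e : s * P.co v (n + 1) + (qq * a - s * P.co v (n + 1)) = qq * a := by ring
      rwa [e] at this
    have k2 : ∀ m, m ≠ n → m ≠ n + 1 → |s * P.co w' m - s * P.co v m| ≤ r0 / Q ^ m := by
      intro m m1 m2
      have := hcl m
      rw [hcw m] at this
      have e0 : sel n c0 c1 m = 0 := by unfold sel; rw [if_neg m1, if_neg m2]
      rwa [e0, add_zero] at this
    obtain ⟨g1, g2, g3, g4⟩ := Good.st (x0 := fun m => s * P.co w' m) hpar h.RQ' hn hG ha0 hb1 hr00 hr1 hr2 k0 k1 k2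
    have hen : energy (u 0) ≤ E := by
      rw [hu, hE]
      have e1 : w' = (v + (w - v)) + (w' - w) := by abel
      have e2 : energy (w' - w) ≤ 3 * (1 : ℝ) ^ 2 := by
        refine energy_bd ?_ fun x i => ?_
        · exact (by
            have e : w' - w = w' + (-1 : ℝ) • w := by simp [sub_eq_add_neg]
            rw [e]; exact hw'.add (hwS.smul (-1)))
        · rw [Pi.sub_apply, Pi.sub_apply]
          refine (h1 x i).trans ?_
          linarith
      have c1' : Continuous (w - v) := hwS.cont.sub hv.cont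
      have c2' : Continuous (w' - w) := hw'.cont.sub hwS.cont
      have e3 := energy_add_le (hv.cont.add c1') c2'
      have e4 := energy_add_le hv.cont c1'
      rw [← e1] at e3
      linarith
    have hsys := sysS h hG hX hs1 hO hKf hs hν hen hbp hN'
    have hy0 : ∀ k, |qo P (u 0) k| ≤ b / Q ^ k := by
      intro k
      rw [hu, le_div_iff₀ (pow_pos hQ0 k)]
      have h2 := hclq k
      rw [le_div_iff₀ (pow_pos hQ0 k)] at h2
      have h3 := hCq k
      rw [pow_one] at h3
      have hQk : Q ^ k ≤ (R : ℝ) ^ k := pow_le_pow_left₀ hQ0.le h.QR k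
      have h4 : |qo P v k| * Q ^ k ≤ |qo P v k| * (R : ℝ) ^ k := by gcongr
      have h5 : |qo P w' k| ≤ |qo P w' k - qo P v k| + |qo P v k| := by
        have := abs_add_le (qo P w' k - qo P v k) (qo P v k)
        rwa [sub_add_cancel] at this
      have h6 : |qo P w' k| * Q ^ k ≤ (|qo P w' k - qo P v k| + |qo P v k|) * Q ^ k := by
        have := pow_pos hQ0 k
        gcongr
      rw [add_mul] at h6
      linarith
    have hst := g2 (fun n t => s * P.co (u t) n) fun m => by
      show s * P.co (u 0) m = s * P.co w' m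
      rw [hu]
    exact hsys.blowup hbp hβb (n0 := n) (A0 := s * P.co w' n) (St_of hbp.le hQ0 hst hy0) (Cond_of hNn g3) g4

end Pool.Agent.N980.WT
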