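import Pool.Agent.N980.WT.Sys
import Pool.Agent.N980.WQ.Dat2

/-!
The bound of the alternating form in Lebesgue spaces.
-/

open MeasureTheory Set Filter Topology
open scoped ContDiff

set_option linter.unusedVariables false

namespace Pool.Agent.N980.WT

open Pool.Agent.N980.NU
open Pool.Agent.N980.WP hiding Sys St Cond Good
open Pool.Agent.N980.WQ
open Pool.Agent.N980.CB (one_le_R R_pos gG rpow_swap)
open Pool.Agent.H356R3.NS (K C3 E3 R3 ex SN Sym RD TT SF SFam Fam cf' at' nk pw fj dS Bf dt)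

variable {R : ℕ} {σ κ G : ℝ} {X : Fm R (wd (Lw R κ))}

theorem lb_p (P : Qm) : LB P.X 2700 := fun p hp u hu n => by
  have h1 := (P.pk.pp n).co_lp (by norm_num) (P.wh.wd.pos n) hp hu
  refine h1.trans (le_of_eq ?_)
  ring

theorem lb_q (P : Qm) : LB (qX P) 2700 := fun p hp u hu n => by
  have h1 := (P.pk.qp n).co_lp (by norm_num) (P.wh.wd.pos n) hp hu
  refine h1.trans (le_of_eq ?_)
  ring

/-- The bound of the form in Lebesgue spaces. -/
theorem lp_boundA (h : PC R σ κ) (hG : 0 < G) (hX : PkF h.wh.wd X) : ∃ C, 0 ≤ C ∧ ∀ p₁ p₂ p₃ : ℝ, 1 < p₁ → 1 < p₂ → 1 < p₃ →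
    1 / p₁ + 1 / p₂ + 1 / p₃ = 1 → ∀ M : ℝ, 1 ≤ M → ∀ u v z : V → V, SPV u → SPV v → SPV z →
    (BL M u ∨ BL M v ∨ BL M z) →
    |ip (KQ (aT (qm h hG hX)) u v) z| ≤ C * M ^ (σ - 2 + κ) * (lpn p₁ u * lpn p₂ v * lpn p₃ z) := by
  set P := qm h hG hX with hP
  set W : ℝ := (R : ℝ) ^ (1 - κ) + 1 with hW
  have hW1 : 1 ≤ W := by have := h.W1; linarith
  set s : ℝ := σ - 2 + κ with hs
  have hs1 : κ < s := by linarith [h.s2]
  have hs0 : 0 < s := by linarith [h.k0]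
  have hw : Wd R (wd (Lw R κ)) := h.wh.wd
  have hR0 := h.R0
  have hR1 := h.R1
  refine ⟨24 * (2700 * W) ^ 3 * G * (2 * 2 ^ s), by positivity, ?_⟩
  intro p₁ p₂ p₃ h1 h2 h3 hp M hM u v z hu hv hz hBL
  have hA := lpn_nonneg p₁ u
  have hB := lpn_nonneg p₂ v
  have hC := lpn_nonneg p₃ z
  have hform := TW_form P.wh.wd ![aD1 P, aD2 P] hu hv hz
  have e0 : (![aD1 P, aD2 P] : Fin 2 → W3 P.R (wd P.L)) 0 = aD1 P := rfl
  have e1 : (![aD1 P, aD2 P] : Fin 2 → W3 P.R (wd P.L)) 1 = aD2 P := rfl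
  rw [e0, e1] at hform
  -- the last level
  set N : ℕ := Nat.log R ⌊2 * M⌋₊ with hN
  have hR4 := h.R4
  have hfl : ⌊2 * M⌋₊ ≠ 0 := by
    have : 1 ≤ ⌊2 * M⌋₊ := (Nat.one_le_floor_iff _).2 (by linarith)
    omega
  have hNle : (R : ℝ) ^ N ≤ 2 * M := by
    have h4 : R ^ N ≤ ⌊2 * M⌋₊ := Nat.pow_log_le_self R hfl
    have h5 : ((⌊2 * M⌋₊ : ℕ) : ℝ) ≤ 2 * M := Nat.floor_le (by linarith)
    have h6 : ((R ^ N : ℕ) : ℝ) ≤ ((⌊2 * M⌋₊ : ℕ) : ℝ) := by exact_mod_cast h4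
    push_cast at h6
    linarith
  have hgt : ∀ n, N < n → 2 * M < (R : ℝ) ^ n := by
    intro n hn
    have h4 : ⌊2 * M⌋₊ < R ^ n := by
      have := Nat.lt_pow_succ_log_self (by omega : 1 < R) ⌊2 * M⌋₊
      refine this.trans_le (Nat.pow_le_pow_right (by omega) hn)
    have h5 := (Nat.floor_lt (by linarith : 0 ≤ 2 * M)).1 h4
    push_cast at h5
    exact h5
  have hPR : P.R = R := rfl
  -- the terms beyond the last level vanish
  have hz0 : ∀ n, N < n → (aD1 P).tm u v z n + (aD2 P).tm u v z n = 0 := by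
    intro n hn
    have q1 := hgt n hn
    have q2 := hgt (n + 1) (by omega)
    have z1 : ∀ q : V → V, Continuous q → BL M q → P.X.cs q n = 0 := fun q hq hb => BL_cs P.X hq hb q1
    have z2 : ∀ q : V → V, Continuous q → BL M q → P.X'.cs q n = 0 := fun q hq hb =>
      BL_cs P.X (n := n + 1) hq hb q2
    have z3 : ∀ q : V → V, Continuous q → BL M q → (qX P).cs q n = 0 := fun q hq hb => BL_cs (qX P) hq hb q1
    have z4 : ∀ q : V → V, Continuous q → BL M q → (qX' P).cs q n = 0 := fun q hq hb =>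
      BL_cs (qX P) (n := n + 1) hq hb q2
    have y1 : ∀ j (q : V → V), Continuous q → BL M q → ((aD1 P).Y j).cs q n = 0 := by
      intro j q hq hb
      fin_cases j
      · exact z1 q hq hb
      · exact z2 q hq hb
      · exact z4 q hq hb
    have y2 : ∀ j (q : V → V), Continuous q → BL M q → ((aD2 P).Y j).cs q n = 0 := by
      intro j q hq hb
      fin_cases j
      · exact z1 q hq hb
      · exact z2 q hq hb
      · exact z3 q hq hb
    rw [tm_zero (aD1 P) hu.cont hv.cont hz.cont hBL (fun j hb => y1 j u hu.cont hb) y1,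
      tm_zero (aD2 P) hu.cont hv.cont hz.cont hBL (fun j hb => y2 j u hu.cont hb) y2, add_zero]
  -- the families
  have l1 : LB P.X (2700 * W) := (lb_p P).mono P.wh.wd (by linarith)
  have l3 : LB (qX P) (2700 * W) := (lb_q P).mono P.wh.wd (by linarith)
  have l2 : LB P.X' (2700 * W) := (lb_p P).shift P.wh.wd (by norm_num) hW1 h.gr _ _
  have l4 : LB (qX' P) (2700 * W) := (lb_q P).shift P.wh.wd (by norm_num) hW1 h.gr _ _
  have y1 : ∀ j, LB ((aD1 P).Y j) (2700 * W) := by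
    intro j
    fin_cases j
    · exact l1
    · exact l2
    · exact l4
  have y2 : ∀ j, LB ((aD2 P).Y j) (2700 * W) := by
    intro j
    fin_cases j
    · exact l1
    · exact l2
    · exact l3
  have hterm : ∀ n, |(aD1 P).tm u v z n + (aD2 P).tm u v z n|
      ≤ 24 * (2700 * W) ^ 3 * G * (lpn p₁ u * lpn p₂ v * lpn p₃ z) * ((R : ℝ) ^ s) ^ n := by
    intro n
    have hRn : (0 : ℝ) < (R : ℝ) ^ n := pow_pos hR0 n
    have hpi := Real.pi_gt_three
    have hgn : P.g n = G * ((R : ℝ) ^ σ) ^ n := rfl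
    have hg0 := P.g0 n
    have hδ0 := P.δ0
    have hδ1 := P.δ1
    have b1 : ∀ j, |(aD1 P).a j n| ≤ P.g n / (R : ℝ) ^ n := by
      intro j
      show |1 / (2 * Real.pi * (R : ℝ) ^ (n + 1)) * P.g n| ≤ _
      rw [abs_of_nonneg (by positivity), one_div, inv_mul_eq_div]
      apply div_le_div_of_nonneg_left hg0 hRn
      rw [pow_succ]
      have : (R : ℝ) ^ n * 1 ≤ (R : ℝ) ^ n * R := by gcongr
      nlinarith
    have b2 : ∀ j, |(aD2 P).a j n| ≤ P.g n / (R : ℝ) ^ n := by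
      intro j
      show |P.δ / (2 * Real.pi * (R : ℝ) ^ n) * P.g n| ≤ _
      rw [abs_of_nonneg (by positivity), div_mul_eq_mul_div]
      apply div_le_div₀ hg0 _ hRn _
      · exact mul_le_of_le_one_left hg0 hδ1
      · nlinarith
    have t1 := tm_le P.wh.wd (aD1 P) (by positivity : 0 ≤ 2700 * W) y1 y1 b1 h1 h2 h3 hp hu.cont hv.cont hz.cont
    have t2 := tm_le P.wh.wd (aD2 P) (by positivity : 0 ≤ 2700 * W) y2 y2 b2 h1 h2 h3 hp hu.cont hv.cont hz.cont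
    have hl0 := hw.pos n
    have hwl : wd P.L n = wd (Lw R κ) n := rfl
    rw [hwl] at t1 t2
    have hgl : P.g n / (R : ℝ) ^ n / wd (Lw R κ) n ≤ 2 * G * ((R : ℝ) ^ s) ^ n := by
      have h5 := h.wd_ge n
      have e : (R : ℝ) ^ σ = (R : ℝ) ^ s * (R : ℝ) ^ (1 - κ) * R := by
        nth_rewrite 4 [← Real.rpow_one (R : ℝ)]
        rw [← Real.rpow_add hR0, ← Real.rpow_add hR0]; congr 1; rw [hs]; ring
      rw [hgn, e, mul_pow, mul_pow, div_le_iff₀ hl0, div_le_iff₀ hRn]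
      have hq : (0 : ℝ) ≤ G * ((R : ℝ) ^ s) ^ n := by positivity
      have h6 : ((R : ℝ) ^ (1 - κ)) ^ n ≤ 2 * wd (Lw R κ) n := by linarith
      calc G * (((R : ℝ) ^ s) ^ n * ((R : ℝ) ^ (1 - κ)) ^ n * (R : ℝ) ^ n)
          = G * ((R : ℝ) ^ s) ^ n * ((R : ℝ) ^ (1 - κ)) ^ n * (R : ℝ) ^ n := by ring
        _ ≤ G * ((R : ℝ) ^ s) ^ n * (2 * wd (Lw R κ) n) * (R : ℝ) ^ n := by gcongr
        _ = _ := by ring
    have hL0 : 0 ≤ lpn p₁ u * lpn p₂ v * lpn p₃ z := by positivity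
    refine (abs_add_le _ _).trans ?_
    calc _ ≤ 6 * (2700 * W) ^ 3 * (P.g n / (R : ℝ) ^ n / wd (Lw R κ) n) * (lpn p₁ u * lpn p₂ v * lpn p₃ z)
          + 6 * (2700 * W) ^ 3 * (P.g n / (R : ℝ) ^ n / wd (Lw R κ) n) * (lpn p₁ u * lpn p₂ v * lpn p₃ z) :=
          add_le_add t1 t2
      _ = 12 * (2700 * W) ^ 3 * (lpn p₁ u * lpn p₂ v * lpn p₃ z) * (P.g n / (R : ℝ) ^ n / wd (Lw R κ) n) := by ring
      _ ≤ 12 * (2700 * W) ^ 3 * (lpn p₁ u * lpn p₂ v * lpn p₃ z) * (2 * G * ((R : ℝ) ^ s) ^ n) := by gcongr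
      _ = _ := by ring
  have hval := hform.unique (hasSum_sum_of_ne_finset_zero (s := Finset.range (N + 1)) fun n hn =>
    hz0 n (by rw [Finset.mem_range] at hn; omega))
  have hkt : ip (KQ (aT P) u v) z = ip (KQ (TW ![aD1 P, aD2 P]) u v) z := rfl
  rw [hkt, hval]
  have hρ : 2 ≤ (R : ℝ) ^ s := by
    have h5 : (R : ℝ) ^ κ ≤ (R : ℝ) ^ s := Real.rpow_le_rpow_of_exponent_le hR1.le hs1.le
    have := h.RQ
    linarith [show (2 : ℝ) ≤ 10 ^ 5 by norm_num]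
  have hlast : ((R : ℝ) ^ s) ^ N ≤ 2 ^ s * M ^ s := by
    have e : ((R : ℝ) ^ s) ^ N = ((R : ℝ) ^ N) ^ s := (CB.rpow_swap R s N).symm
    rw [e, ← Real.mul_rpow (by norm_num) (by linarith)]
    exact Real.rpow_le_rpow (by positivity) hNle (by linarith)
  calc _ ≤ ∑ n ∈ Finset.range (N + 1), 24 * (2700 * W) ^ 3 * G * (lpn p₁ u * lpn p₂ v * lpn p₃ z) * ((R : ℝ) ^ s) ^ n :=
        (Finset.abs_sum_le_sum_abs _ _).trans (Finset.sum_le_sum fun n _ => hterm n)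
    _ = 24 * (2700 * W) ^ 3 * G * (lpn p₁ u * lpn p₂ v * lpn p₃ z) * ∑ n ∈ Finset.range (N + 1), ((R : ℝ) ^ s) ^ n := by
        rw [← Finset.mul_sum]
    _ ≤ 24 * (2700 * W) ^ 3 * G * (lpn p₁ u * lpn p₂ v * lpn p₃ z) * (2 * ((R : ℝ) ^ s) ^ N) := by
        have := geo_le hρ N
        gcongr
    _ ≤ 24 * (2700 * W) ^ 3 * G * (lpn p₁ u * lpn p₂ v * lpn p₃ z) * (2 * (2 ^ s * M ^ s)) := by gcongr
    _ = _ := by ring

end Pool.Agent.N980.WT
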