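import Pool.Agent.N980.WT.Pk3
import Pool.Agent.N980.WT.Fin3

/-!
The concrete family of packets with no vanishing coordinate of the frequencies.
-/

open MeasureTheory Set Filter Topology
open scoped ContDiff

set_option linter.unusedVariables false

namespace Pool.Agent.N980.WT

open Pool.Agent.N980.NU
open Pool.Agent.N980.WP
open Pool.Agent.N980.WQ
open Pool.Agent.N980.CB (one_le_R R_pos)
open Pool.Agent.H356R3.NS (K C3 E3 R3 ex SN Sym RD TT SF SFam Fam cf' at' nk pw fj dS Bf dt)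

variable {R : ℕ} {σ κ : ℝ}

/-- The widths of the packets. -/
theorem WL_of (h : PC R σ κ) : WL R (Lw R κ) (fun _ => 0) (wd (Lw R κ)) where
  w := h.wh.wd
  hR := h.R4
  h8 := fun n => by
    rcases Nat.eq_zero_or_pos n with hn | hn
    · subst hn
      have : Lw R κ 0 = 0 := by
        unfold Lw
        rw [pow_zero, Nat.floor_eq_zero]
        norm_num
      rw [this]; simp
    · have h1 : (Lw R κ n : ℝ) ≤ ((R : ℝ) ^ (1 - κ)) ^ n / 2 := Nat.floor_le (by positivity)
      have hk : 10 ^ 5 ≤ (R : ℝ) ^ κ := h.RQ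
      have hk0 : (1 : ℝ) ≤ (R : ℝ) ^ κ := by linarith [show (1 : ℝ) ≤ 10 ^ 5 by norm_num]
      have h2 : ((R : ℝ) ^ (1 - κ)) ^ n * ((R : ℝ) ^ κ) ^ n = (R : ℝ) ^ n := by
        rw [← mul_pow, ← Real.rpow_add h.R0]
        have : 1 - κ + κ = 1 := by ring
        rw [this, Real.rpow_one]
      have h3 : (10 : ℝ) ^ 5 ≤ ((R : ℝ) ^ κ) ^ n := hk.trans (le_self_pow₀ hk0 (by omega))
      have h4 : 0 ≤ ((R : ℝ) ^ (1 - κ)) ^ n := by positivity
      have h5 : 8 * (Lw R κ n : ℝ) ≤ (R : ℝ) ^ n := by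
        rw [← h2]
        nlinarith
      exact_mod_cast h5
  hle := fun n => Nat.zero_le _
  hℓ := fun n => by
    unfold wd
    rw [Nat.cast_zero, zero_add, Real.sqrt_one, mul_one]

/-- The family of the packets. -/
noncomputable def XX (h : PC R σ κ) : Fm R (wd (Lw R κ)) := X3 (WL_of h)

theorem PkF_of (h : PC R σ κ) : PkF h.wh.wd (XX h) where
  dv := X3_dv (WL_of h)
  on := X3_on (WL_of h)
  pq := X3_pq (WL_of h)
  sq := fun n k hk => by
    have h1 := (WL_of h).diff (X3_ne (WL_of h) hk)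
    have hpi : Real.pi ^ 2 < 10 := by nlinarith [Real.pi_lt_d2, Real.pi_pos]
    rw [← mul_sub, abs_mul, abs_of_pos (by positivity)]
    have h2 : 0 ≤ (R : ℝ) ^ n * ((Lw R κ n : ℝ) + 1) := by positivity
    have h3 : wd (Lw R κ) n = (Lw R κ n : ℝ) + 1 := rfl
    rw [h3]
    calc 4 * Real.pi ^ 2 * |((R : ℝ) ^ n) ^ 2 - H356R3.NS.sq k|
        ≤ 4 * 10 * (5 * ((R : ℝ) ^ n * ((Lw R κ n : ℝ) + 1))) := by gcongr
      _ ≤ 280 * ((R : ℝ) ^ n * ((Lw R κ n : ℝ) + 1)) := by linarith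
  lo := fun n k hk => by
    have h1 := (WL_of h).lo (X3_ne (WL_of h) hk)
    rw [sq3, sq_abs, sq_abs, sq_abs]
    nlinarith [sq_nonneg (k 1 : ℝ), sq_nonneg (k 2 : ℝ)]
  hi := fun n k hk => (WL_of h).hi (X3_ne (WL_of h) hk)
  pp := fun n => X3_pkt (WL_of h) n
  qp := fun n => qX3_pkt (WL_of h) n
  nz := fun n k hk j => by
    obtain ⟨h1, h2, h3, h4, h5, h6⟩ := (WL_of h).supp (X3_ne (WL_of h) hk)
    obtain ⟨a1, a2, a3⟩ := (WL_of h).cases n
    intro h0
    fin_cases j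
    · have h0' : k 0 = 0 := h0
      rw [h0'] at h1
      simp at h1
      rcases a3 with a3 | a3 <;> linarith
    · have h0' : k 1 = 0 := h0
      rw [h0'] at h3
      simp at h3
      linarith
    · have h0' : k 2 = 0 := h0
      rw [h0'] at h5
      simp at h5
      linarith

end Pool.Agent.N980.WT
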