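import Pool.Agent.N980.WT.Fam3

/-!
The Lebesgue norms of the packets and of their curls.
-/

open MeasureTheory Set Filter Topology
open scoped ContDiff

set_option linter.unusedVariables false

namespace Pool.Agent.N980.WT

open Pool.Agent.N980.NU
open Pool.Agent.N980.WP
open Pool.Agent.N980.WQ
open Pool.Agent.N980.CB (one_le_R R_pos)
open Pool.Agent.H356R3.NS (K C3 E3 R3 ex SN Sym RD TT SF SFam Fam cf' at' nk pw fj dS Bf dt)

/-! ### concentrated scalar functions -/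

/-- The function has the norms of a packet. -/
structure Sk (s ℓ : ℝ) (u : V → ℝ) : Prop where
  cont : Continuous u
  sup : ∀ x, |u x| ≤ s * ℓ
  int : ∫ x in cube, |u x| ≤ s / ℓ

variable {s s' ℓ : ℝ} {u v : V → ℝ}

theorem Sk.smul (h : Sk s ℓ u) {a b : ℝ} (ha : |a| ≤ b) : Sk (b * s) ℓ (fun x => a * u x) where
  cont := h.cont.const_mul a
  sup := fun x => by
    rw [abs_mul, mul_assoc]
    exact mul_le_mul ha (h.sup x) (abs_nonneg _) ((abs_nonneg _).trans ha)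
  int := by
    have e : ∀ x, |a * u x| = |a| * |u x| := fun x => abs_mul _ _
    simp only [e]
    rw [integral_const_mul, mul_div_assoc]
    exact mul_le_mul ha h.int (integral_nonneg fun _ => abs_nonneg _) ((abs_nonneg _).trans ha)

theorem Sk.add (h : Sk s ℓ u) (h' : Sk s' ℓ v) : Sk (s + s') ℓ (fun x => u x + v x) where
  cont := h.cont.add h'.cont
  sup := fun x => (abs_add_le _ _).trans (by rw [add_mul]; exact add_le_add (h.sup x) (h'.sup x))
  int := by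
    have h1 : ∫ x in cube, |u x + v x| ≤ ∫ x in cube, (|u x| + |v x|) :=
      setIntegral_mono_on (int_on_cube (h.cont.add h'.cont).abs) (int_on_cube (h.cont.abs.add h'.cont.abs))
        measurableSet_Icc fun x _ => abs_add_le _ _
    rw [integral_add (int_on_cube h.cont.abs) (int_on_cube h'.cont.abs)] at h1
    rw [add_div]
    linarith [h.int, h'.int]

theorem Sk.neg (h : Sk s ℓ u) : Sk s ℓ (fun x => -u x) where
  cont := h.cont.neg
  sup := fun x => by rw [abs_neg]; exact h.sup x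
  int := by simpa only [abs_neg] using h.int

/-- A field with concentrated components. -/
theorem Pkt_of {u0 u1 u2 : V → ℝ} {s0 s1 s2 c : ℝ} (hℓ : 0 < ℓ) (h0 : Sk s0 ℓ u0) (h1 : Sk s1 ℓ u1) (h2 : Sk s2 ℓ u2)
    (hc : s0 + s1 + s2 ≤ c) {F : V → V} (hF : ∀ x, F x = ![u0 x, u1 x, u2 x]) : Pkt c ℓ F := by
  have e : F = fun x => ![u0 x, u1 x, u2 x] := funext hF
  have hcont : Continuous F := by
    rw [e]
    refine continuous_pi fun i => ?_
    fin_cases i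
    · exact h0.cont
    · exact h1.cont
    · exact h2.cont
  have hn : ∀ x, ‖F x‖ ≤ |u0 x| + |u1 x| + |u2 x| := by
    intro x
    have a0 := abs_nonneg (u0 x)
    have a1 := abs_nonneg (u1 x)
    have a2 := abs_nonneg (u2 x)
    rw [hF, pi_norm_le_iff_of_nonneg (by positivity)]
    intro i
    fin_cases i
    · show |u0 x| ≤ _
      linarith
    · show |u1 x| ≤ _
      linarith
    · show |u2 x| ≤ _
      linarith
  refine ⟨hcont, ?_, fun x => ?_⟩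
  · have hc1 : Continuous fun x => |u0 x| + |u1 x| := h0.cont.abs.add h1.cont.abs
    have hc2 : Continuous fun x => |u0 x| + |u1 x| + |u2 x| := hc1.add h2.cont.abs
    have h3 := setIntegral_mono_on (int_on_cube hcont.norm) (int_on_cube hc2) measurableSet_Icc fun x _ => hn x
    rw [integral_add (int_on_cube hc1) (int_on_cube h2.cont.abs),
      integral_add (int_on_cube h0.cont.abs) (int_on_cube h1.cont.abs)] at h3
    refine h3.trans ?_
    have h4 := h0.int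
    have h5 := h1.int
    have h6 := h2.int
    calc _ ≤ s0 / ℓ + s1 / ℓ + s2 / ℓ := by linarith
      _ = (s0 + s1 + s2) / ℓ := by ring
      _ ≤ c / ℓ := by gcongr
  · have h4 := h0.sup x
    have h5 := h1.sup x
    have h6 := h2.sup x
    refine (hn x).trans ?_
    calc _ ≤ s0 * ℓ + s1 * ℓ + s2 * ℓ := by linarith
      _ = (s0 + s1 + s2) * ℓ := by ring
      _ ≤ c * ℓ := by gcongr

/-! ### the potentials in the physical space -/

variable {R : ℕ} {L L' : ℕ → ℕ} {ℓ : ℕ → ℝ}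

theorem Φ_F (h : WL R L L' ℓ) (n : ℕ) (x : V) : (Φ h).F n x
    = ![0, 8 * am R L L' n * T3 (W0 (R ^ n) (L n)) (W0 (L n + 1) (L n)) (W0 (L' n + 1) (L' n)) x, 0] := by
  funext i
  show (fs (fun k => φψ R L L' n k i) x).re = _
  fin_cases i
  · simp [fs, φψ]
  · show (∑' k : K, ((am R L L' n * rc (R ^ n) (L n) (L' n) k : ℝ) : ℂ) * ex k x).re = _
    have e : ∀ k : K, ((am R L L' n * rc (R ^ n) (L n) (L' n) k : ℝ) : ℂ) * ex k x
        = (am R L L' n : ℂ) * ((rc (R ^ n) (L n) (L' n) k : ℂ) * ex k x) := by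
      intro k
      push_cast
      ring
    rw [tsum_congr e, tsum_mul_left, rc_phys, ← Complex.ofReal_mul, Complex.ofReal_re]
    show _ = 8 * am R L L' n * T3 (W0 (R ^ n) (L n)) (W0 (L n + 1) (L n)) (W0 (L' n + 1) (L' n)) x
    ring
  · simp [fs, φψ]

theorem pd_zero (j : Fin 3) (x : V) : pd j (fun _ : V => (0 : ℝ)) x = 0 := by
  unfold pd
  rw [fderiv_fun_const]
  rfl

theorem X3_F (h : WL R L L' ℓ) (n : ℕ) (x : V) : (X3 h).F n x
    = ![-(1 / (2 * Real.pi * (R : ℝ) ^ n) * (8 * am R L L' n)) * T3 (W0 (R ^ n) (L n)) (W0 (L n + 1) (L n)) (W1 (L' n + 1) (L' n)) x,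
      0, (1 / (2 * Real.pi * (R : ℝ) ^ n) * (8 * am R L L' n)) * T3 (W1 (R ^ n) (L n)) (W0 (L n + 1) (L n)) (W0 (L' n + 1) (L' n)) x] := by
  have h1 : (X3 h).F n = (1 / (2 * Real.pi * (R : ℝ) ^ n)) • curl ((Φ h).F n) := crl_F (Φ h) h.w n
  rw [h1, Pi.smul_apply]
  obtain ⟨e0, e1, e2⟩ := pd_T3 (W0_deriv (R ^ n) (L n)) (W0_deriv (L n + 1) (L n)) (W0_deriv (L' n + 1) (L' n))
    (8 * am R L L' n) x
  have f0 : (fun y : V => (Φ h).F n y 0) = fun _ => (0 : ℝ) := funext fun y => by rw [Φ_F]; rfl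
  have f1 : (fun y : V => (Φ h).F n y 1) = fun y => 8 * am R L L' n * T3 (W0 (R ^ n) (L n)) (W0 (L n + 1) (L n))
      (W0 (L' n + 1) (L' n)) y := funext fun y => by rw [Φ_F]; rfl
  have f2 : (fun y : V => (Φ h).F n y 2) = fun _ => (0 : ℝ) := funext fun y => by rw [Φ_F]; rfl
  have h2 : curl ((Φ h).F n) x = ![pd 1 (fun y => (Φ h).F n y 2) x - pd 2 (fun y => (Φ h).F n y 1) x,
    pd 2 (fun y => (Φ h).F n y 0) x - pd 0 (fun y => (Φ h).F n y 2) x,
    pd 0 (fun y => (Φ h).F n y 1) x - pd 1 (fun y => (Φ h).F n y 0) x] := rfl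
  rw [h2, f0, f1, f2]
  simp only [pd_zero]
  rw [e0, e2]
  funext i
  fin_cases i
  · simp only [Fin.zero_eta, Pi.smul_apply, Matrix.cons_val_zero, smul_eq_mul]
    ring
  · simp only [Fin.mk_one, Pi.smul_apply, Matrix.cons_val, smul_eq_mul, sub_zero, mul_zero]
  · simp only [Fin.reduceFinMk, Pi.smul_apply, Matrix.cons_val, smul_eq_mul]
    ring

theorem qX3_F (h : WL R L L' ℓ) (n : ℕ) (x : V) : (crl (X3 h) h.w).F n x
    = ![(1 / (2 * Real.pi * (R : ℝ) ^ n)) ^ 2 * (8 * am R L L' n) * T3 (W1 (R ^ n) (L n)) (W1 (L n + 1) (L n)) (W0 (L' n + 1) (L' n)) x,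
      -((1 / (2 * Real.pi * (R : ℝ) ^ n)) ^ 2 * (8 * am R L L' n) * T3 (W0 (R ^ n) (L n)) (W0 (L n + 1) (L n)) (W2 (L' n + 1) (L' n)) x
        + (1 / (2 * Real.pi * (R : ℝ) ^ n)) ^ 2 * (8 * am R L L' n) * T3 (W2 (R ^ n) (L n)) (W0 (L n + 1) (L n)) (W0 (L' n + 1) (L' n)) x),
      (1 / (2 * Real.pi * (R : ℝ) ^ n)) ^ 2 * (8 * am R L L' n) * T3 (W0 (R ^ n) (L n)) (W1 (L n + 1) (L n)) (W1 (L' n + 1) (L' n)) x] := by
  have h1 : (crl (X3 h) h.w).F n = (1 / (2 * Real.pi * (R : ℝ) ^ n)) • curl ((X3 h).F n) := crl_F (X3 h) h.w n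
  rw [h1, Pi.smul_apply]
  set κ := 1 / (2 * Real.pi * (R : ℝ) ^ n) with hκ
  set c := 8 * am R L L' n with hc
  obtain ⟨a0, a1, a2⟩ := pd_T3 (W0_deriv (R ^ n) (L n)) (W0_deriv (L n + 1) (L n)) (W1_deriv (L' n + 1) (L' n))
    (-(κ * c)) x
  obtain ⟨b0, b1, b2⟩ := pd_T3 (W1_deriv (R ^ n) (L n)) (W0_deriv (L n + 1) (L n)) (W0_deriv (L' n + 1) (L' n))
    (κ * c) x
  have f0 : (fun y : V => (X3 h).F n y 0) = fun y => -(κ * c) * T3 (W0 (R ^ n) (L n)) (W0 (L n + 1) (L n))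
      (W1 (L' n + 1) (L' n)) y := funext fun y => by rw [X3_F]; rfl
  have f1 : (fun y : V => (X3 h).F n y 1) = fun _ => (0 : ℝ) := funext fun y => by rw [X3_F]; rfl
  have f2 : (fun y : V => (X3 h).F n y 2) = fun y => (κ * c) * T3 (W1 (R ^ n) (L n)) (W0 (L n + 1) (L n))
      (W0 (L' n + 1) (L' n)) y := funext fun y => by rw [X3_F]; rfl
  have h2 : curl ((X3 h).F n) x = ![pd 1 (fun y => (X3 h).F n y 2) x - pd 2 (fun y => (X3 h).F n y 1) x,
    pd 2 (fun y => (X3 h).F n y 0) x - pd 0 (fun y => (X3 h).F n y 2) x,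
    pd 0 (fun y => (X3 h).F n y 1) x - pd 1 (fun y => (X3 h).F n y 0) x] := rfl
  rw [h2, f0, f1, f2]
  simp only [pd_zero]
  rw [a1, a2, b0, b1]
  funext i
  fin_cases i
  · simp only [Fin.zero_eta, Pi.smul_apply, Matrix.cons_val_zero, smul_eq_mul]
    ring
  · simp only [Fin.mk_one, Pi.smul_apply, Matrix.cons_val, smul_eq_mul, sub_zero]
    ring
  · simp only [Fin.reduceFinMk, Pi.smul_apply, Matrix.cons_val, smul_eq_mul]
    ring

/-! ### the bounds -/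

theorem T3_Sk (h : WL R L L' ℓ) (n : ℕ) {f g e : ℝ → ℝ} {c1 c2 c3 : ℝ} (hf : B1 c1 ((L n : ℝ) + 1) f)
    (hg : B1 c2 ((L n : ℝ) + 1) g) (he : B1 c3 ((L' n : ℝ) + 1) e) {b : ℝ} (hb : |b| ≤ 16 / ℓ n) :
    Sk (16 * (c1 * c2 * c3)) (ℓ n) (fun x => b * T3 f g e x) := by
  have hl := h.w.pos n
  have hsq := h.ℓsq n
  have d1 := hf.c0
  have d2 := hg.c0
  have d3 := he.c0
  refine ⟨(T3_cont hf.cont hg.cont he.cont).const_mul b, fun x => ?_, ?_⟩
  · rw [abs_mul]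
    have h1 := T3_sup hf hg he x
    have e1 : ((L n : ℝ) + 1) * ((L n : ℝ) + 1) * ((L' n : ℝ) + 1) = ℓ n ^ 2 := by rw [hsq]; ring
    rw [e1] at h1
    calc |b| * |T3 f g e x| ≤ (16 / ℓ n) * (c1 * c2 * c3 * ℓ n ^ 2) := by gcongr
      _ = 16 * (c1 * c2 * c3) * ℓ n := by field_simp
  · have e1 : ∀ x, |b * T3 f g e x| = |b| * |T3 f g e x| := fun x => abs_mul _ _
    simp only [e1]
    rw [integral_const_mul]
    have h1 := T3_int hf hg he
    calc |b| * ∫ x in cube, |T3 f g e x| ≤ (16 / ℓ n) * (c1 * c2 * c3) := by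
          have h2 : 0 ≤ ∫ x in cube, |T3 f g e x| := integral_nonneg fun _ => abs_nonneg _
          gcongr
      _ = 16 * (c1 * c2 * c3) / ℓ n := by ring

theorem lR (h : WL R L L' ℓ) (n : ℕ) : (L n : ℝ) + 1 ≤ (R : ℝ) ^ n := by
  have h1 : L n + 1 ≤ R ^ n := h.lt n
  exact_mod_cast h1

theorem lR' (h : WL R L L' ℓ) (n : ℕ) : (L' n : ℝ) + 1 ≤ (R : ℝ) ^ n := by
  have h1 : (L' n : ℝ) ≤ L n := by exact_mod_cast h.hle n
  linarith [lR h n]

theorem b_am (h : WL R L L' ℓ) (n : ℕ) : |8 * am R L L' n| ≤ 16 / ℓ n := by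
  have h1 := h.am_pos n
  have h2 := h.am_le n
  rw [abs_of_pos (by positivity)]
  calc 8 * am R L L' n ≤ 8 * (2 / ℓ n) := by gcongr
    _ = 16 / ℓ n := by ring

theorem X3_pkt (h : WL R L L' ℓ) (n : ℕ) : Pkt 900 (ℓ n) ((X3 h).F n) := by
  have hpi := Real.pi_pos
  have hR := R_pos h.w.hR n
  have hl := h.w.pos n
  have l1 := lR h n
  have l2 := lR' h n
  set κ := 1 / (2 * Real.pi * (R : ℝ) ^ n) with hκ
  set c := 8 * am R L L' n with hc
  have hb : |c| ≤ 16 / ℓ n := b_am h n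
  set D := 6 * Real.pi * (R : ℝ) ^ n with hD
  have hD0 : 0 < D := by positivity
  have hκ0 : 0 < κ := by positivity
  have hκD : κ * D = 3 := by rw [hκ, hD]; field_simp; norm_num
  have hA : B1 1 ((L n : ℝ) + 1) (W0 (R ^ n) (L n)) := B1_W0 _ _
  have hB : B1 1 ((L n : ℝ) + 1) (W0 (L n + 1) (L n)) := B1_W0 _ _
  have hC : B1 1 ((L' n : ℝ) + 1) (W0 (L' n + 1) (L' n)) := B1_W0 _ _
  have hA1 : B1 D ((L n : ℝ) + 1) (W1 (R ^ n) (L n)) := (B1_W1 _ _).mono (by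
    push_cast
    rw [hD]; nlinarith) (by positivity)
  have hC1 : B1 D ((L' n : ℝ) + 1) (W1 (L' n + 1) (L' n)) := (B1_W1 _ _).mono (by
    push_cast
    rw [hD]; nlinarith) (by positivity)
  have k0 := (T3_Sk h n hA hB hC1 hb).smul (a := -κ) (b := κ) (by rw [abs_neg, abs_of_pos hκ0])
  have k2 := (T3_Sk h n hA1 hB hC hb).smul (a := κ) (b := κ) (by rw [abs_of_pos hκ0])
  have k1 : Sk 0 (ℓ n) (fun _ : V => (0 : ℝ)) := ⟨continuous_const, fun x => by simp, by simp⟩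
  refine Pkt_of hl k0 k1 k2 ?_ fun x => ?_
  · have e : κ * (16 * (1 * 1 * D)) + 0 + κ * (16 * (D * 1 * 1)) = 32 * (κ * D) := by ring
    rw [e, hκD]
    norm_num
  · rw [X3_F]
    funext i
    fin_cases i
    · show -(κ * c) * _ = -κ * (c * _)
      ring
    · rfl
    · show κ * c * _ = κ * (c * _)
      ring

theorem qX3_pkt (h : WL R L L' ℓ) (n : ℕ) : Pkt 900 (ℓ n) ((crl (X3 h) h.w).F n) := by
  have hpi := Real.pi_pos
  have hR := R_pos h.w.hR n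
  have hl := h.w.pos n
  have l1 := lR h n
  have l2 := lR' h n
  set κ := 1 / (2 * Real.pi * (R : ℝ) ^ n) with hκ
  set c := 8 * am R L L' n with hc
  have hb : |c| ≤ 16 / ℓ n := b_am h n
  set D := 6 * Real.pi * (R : ℝ) ^ n with hD
  have hD0 : 0 < D := by positivity
  have hκ0 : 0 < κ := by positivity
  have hκD : κ * D = 3 := by rw [hκ, hD]; field_simp; norm_num
  have hκ2 : |κ ^ 2| ≤ κ ^ 2 := by rw [abs_of_pos (by positivity)]
  have hA : B1 1 ((L n : ℝ) + 1) (W0 (R ^ n) (L n)) := B1_W0 _ _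
  have hB : B1 1 ((L n : ℝ) + 1) (W0 (L n + 1) (L n)) := B1_W0 _ _
  have hC : B1 1 ((L' n : ℝ) + 1) (W0 (L' n + 1) (L' n)) := B1_W0 _ _
  have dA : 2 * Real.pi * ((R ^ n : ℕ) : ℝ) + 4 * Real.pi * ((L n : ℝ) + 1) ≤ D := by
    push_cast
    rw [hD]; nlinarith
  have dB : 2 * Real.pi * ((L n + 1 : ℕ) : ℝ) + 4 * Real.pi * ((L n : ℝ) + 1) ≤ D := by
    push_cast
    rw [hD]; nlinarith
  have dC : 2 * Real.pi * ((L' n + 1 : ℕ) : ℝ) + 4 * Real.pi * ((L' n : ℝ) + 1) ≤ D := by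
    push_cast
    rw [hD]; nlinarith
  have hA1 : B1 D ((L n : ℝ) + 1) (W1 (R ^ n) (L n)) := (B1_W1 _ _).mono dA (by positivity)
  have hB1 : B1 D ((L n : ℝ) + 1) (W1 (L n + 1) (L n)) := (B1_W1 _ _).mono dB (by positivity)
  have hC1 : B1 D ((L' n : ℝ) + 1) (W1 (L' n + 1) (L' n)) := (B1_W1 _ _).mono dC (by positivity)
  have hA2 : B1 (D ^ 2) ((L n : ℝ) + 1) (W2 (R ^ n) (L n)) :=
    (B1_W2 _ _).mono (pow_le_pow_left₀ (by positivity) dA 2) (by positivity)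
  have hC2 : B1 (D ^ 2) ((L' n : ℝ) + 1) (W2 (L' n + 1) (L' n)) :=
    (B1_W2 _ _).mono (pow_le_pow_left₀ (by positivity) dC 2) (by positivity)
  have k0 := (T3_Sk h n hA1 hB1 hC hb).smul (a := κ ^ 2) hκ2
  have k1 := (((T3_Sk h n hA hB hC2 hb).smul (a := κ ^ 2) hκ2).add ((T3_Sk h n hA2 hB hC hb).smul (a := κ ^ 2) hκ2)).neg
  have k2 := (T3_Sk h n hA hB1 hC1 hb).smul (a := κ ^ 2) hκ2
  refine Pkt_of hl k0 k1 k2 ?_ fun x => ?_
  · have e : κ ^ 2 * (16 * (D * D * 1)) + (κ ^ 2 * (16 * (1 * 1 * D ^ 2)) + κ ^ 2 * (16 * (D ^ 2 * 1 * 1)))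
        + κ ^ 2 * (16 * (1 * D * D)) = 64 * (κ * D) ^ 2 := by ring
    rw [e, hκD]
    norm_num
  · rw [qX3_F]
    funext i
    fin_cases i
    · show κ ^ 2 * c * _ = κ ^ 2 * (c * _)
      ring
    · show -(κ ^ 2 * c * _ + κ ^ 2 * c * _) = -(κ ^ 2 * (c * _) + κ ^ 2 * (c * _))
      ring
    · show κ ^ 2 * c * _ = κ ^ 2 * (c * _)
      ring

end Pool.Agent.N980.WT
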