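import Pool.Agent.N980.WQ.Alt
import Pool.Agent.N980.WQ.Ql

/-!
Alternating trilinear forms built from a general family of packets.
-/

open MeasureTheory Set Filter Topology
open scoped ContDiff

set_option linter.unusedVariables false

namespace Pool.Agent.N980.WT

open Pool.Agent.N980.NU
open Pool.Agent.N980.WP
open Pool.Agent.N980.WQ
open Pool.Agent.N980.CB (one_le_R R_pos inn out FF)
open Pool.Agent.H356R3.NS (K C3 E3 R3 ex SN Sym RD TT SF SFam Fam cf' at' nk pw fj dS Bf dt)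

/-- A family of packets of frequencies `Rⁿ` and widths `1 / (L n + 1)`. -/
structure PkF {R : ℕ} {L : ℕ → ℕ} (w : Wd R (wd L)) (X : Fm R (wd L)) : Prop where
  dv : X.Dv
  on : ∀ m n, X.co (X.ψ m) n = if m = n then 1 else 0
  pq : ∀ n k, ∑ i, X.ψ n k i * star (cl ((R : ℝ) ^ n) k (X.ψ n k) i) = 0
  sq : ∀ n k, X.ψ n k ≠ 0 →
    |4 * Real.pi ^ 2 * ((R : ℝ) ^ n) ^ 2 - 4 * Real.pi ^ 2 * H356R3.NS.sq k| ≤ 280 * ((R : ℝ) ^ n * wd L n)
  lo : ∀ n k, X.ψ n k ≠ 0 → 1 / 4 * ((R : ℝ) ^ n) ^ 2 ≤ H356R3.NS.sq k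
  hi : ∀ n k, X.ψ n k ≠ 0 → H356R3.NS.sq k ≤ 3 * ((R : ℝ) ^ n) ^ 2
  pp : ∀ n, Pkt 900 (wd L n) (X.F n)
  qp : ∀ n, Pkt 900 (wd L n) ((crl X w).F n)
  nz : ∀ n k, X.ψ n k ≠ 0 → ∀ j, k j ≠ 0

/-- The parameters of the operator. -/
structure Qm where
  R : ℕ
  L : ℕ → ℕ
  g : ℕ → ℝ
  δ : ℝ
  C : ℝ
  D : ℝ
  wh : Wh R L
  mono : ∀ n, L n ≤ L (n + 1)
  gr : ∀ n, wd L (n + 1) ≤ C * wd L n
  g0 : ∀ n, 0 ≤ g n
  hg : ∀ n, g n ≤ D * ((R : ℝ) ^ n) ^ 3
  δ0 : 0 ≤ δ
  δ1 : δ ≤ 1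
  X : Fm R (wd L)
  pk : PkF wh.wd X

variable (P : Qm)

theorem Qm.mono' (n : ℕ) : wd P.L n ≤ wd P.L (n + 1) := by
  unfold wd
  have : (P.L n : ℝ) ≤ P.L (n + 1) := by exact_mod_cast P.mono n
  linarith

/-- The shifted packets. -/
noncomputable def Qm.X' : Fm P.R (wd P.L) := P.X.sh P.wh.wd P.gr P.mono'

theorem Qm.Dv : P.X.Dv := P.pk.dv

theorem Qm.Dv' : P.X'.Dv := fun n k => P.pk.dv (n + 1) k

/-- The coefficient on the packet `n`. -/
noncomputable def Qm.co (u : V → V) (n : ℕ) : ℝ := P.X.cs u n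

theorem Qm.cs_eq (u : V → V) (n : ℕ) : P.X.cs u n = P.co u n := rfl

theorem Qm.cs_eq' (u : V → V) (n : ℕ) : P.X'.cs u n = P.co u (n + 1) := rfl

theorem Qm.co_F (m n : ℕ) : P.co (P.X.F m) n = if m = n then 1 else 0 := by
  unfold Qm.co
  rw [P.X.cs_eq (P.X.spv m).cont, P.X.fco_F]
  exact P.pk.on m n

/-! ### the families -/

/-- The curls of the packets. -/
noncomputable def qX : Fm P.R (wd P.L) := crl P.X P.wh.wd

/-- The double curls of the packets. -/
noncomputable def sX : Fm P.R (wd P.L) := crl (qX P) P.wh.wd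

noncomputable def qX' : Fm P.R (wd P.L) := (qX P).sh P.wh.wd P.gr P.mono'

noncomputable def sX' : Fm P.R (wd P.L) := (sX P).sh P.wh.wd P.gr P.mono'

/-- The coefficient on the curl of the packet `n`. -/
noncomputable def qo (u : V → V) (n : ℕ) : ℝ := (qX P).cs u n

/-- The coefficient on the double curl of the packet `n`. -/
noncomputable def so (u : V → V) (n : ℕ) : ℝ := (sX P).cs u n

theorem R1 : (1 : ℝ) ≤ P.R := by
  have := P.wh.hR
  exact_mod_cast (by omega : 1 ≤ P.R)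

theorem D0 : 0 ≤ P.D := by
  have h1 := P.hg 0
  have h2 := P.g0 0
  simp at h1
  linarith

theorem hb0 (n : ℕ) {c : ℝ} (hc0 : 0 ≤ c) (hc : c ≤ P.R) : |c * P.g n| ≤ P.D * P.R * ((P.R : ℝ) ^ n) ^ 3 := by
  have h1 := P.hg n
  have h2 := P.g0 n
  rw [abs_of_nonneg (mul_nonneg hc0 h2)]
  have h3 := D0 P
  have h4 : (0 : ℝ) ≤ ((P.R : ℝ) ^ n) ^ 3 := by positivity
  calc c * P.g n ≤ P.R * (P.D * ((P.R : ℝ) ^ n) ^ 3) := by
        have := R1 P
        gcongr
    _ = _ := by ring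

/-- The data of the operator: the product of the packets `n`, `n+1` and of the curl of the packet `n+1`. -/
noncomputable def kD1 : W3 P.R (wd P.L) where
  a := ![fun n => (P.R : ℝ)⁻¹ * P.g n, fun n => 1 * P.g n, fun n => 1 * P.g n]
  U := ![qX P, qX' P, sX' P]
  Y := ![P.X, P.X', qX' P]
  C := P.D * P.R
  ha := fun j n => by
    have h1 := R1 P
    have h0 : (0 : ℝ) < P.R := by linarith
    have h2 : (P.R : ℝ)⁻¹ ≤ P.R := (inv_le_one_of_one_le₀ h1).trans h1
    fin_cases j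
    · exact hb0 P n (by positivity) h2
    · exact hb0 P n zero_le_one h1
    · exact hb0 P n zero_le_one h1
  hd := fun j => by
    fin_cases j
    · exact P.Dv
    · exact P.Dv'
    · exact fun n k => crl_Dv P.X P.wh.wd (n + 1) k

/-- The data of the operator: the product of the packets `n`, `n+1` and of the curl of the packet `n`. -/
noncomputable def kD2 : W3 P.R (wd P.L) where
  a := ![fun n => P.δ * P.g n, fun n => (P.δ * P.R) * P.g n, fun n => P.δ * P.g n]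
  U := ![qX P, qX' P, sX P]
  Y := ![P.X, P.X', qX P]
  C := P.D * P.R
  ha := fun j n => by
    have h1 := R1 P
    have h0 : (0 : ℝ) < P.R := by linarith
    have h2 := P.δ0
    have h3 := P.δ1
    fin_cases j
    · exact hb0 P n h2 (h3.trans h1)
    · exact hb0 P n (by positivity) (mul_le_of_le_one_left h0.le h3)
    · exact hb0 P n h2 (h3.trans h1)
  hd := fun j => by
    fin_cases j
    · exact P.Dv
    · exact P.Dv'
    · exact crl_Dv P.X P.wh.wd

/-- The terms of the operator. -/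
noncomputable def kT : Fin 2 × Fin 6 → Tr P.R (wd P.L) := TW ![kD1 P, kD2 P]

/-- The data of the form. -/
noncomputable def aD1 : W3 P.R (wd P.L) where
  a := fun _ n => 1 / (2 * Real.pi * (P.R : ℝ) ^ (n + 1)) * P.g n
  U := ![P.X, P.X', qX' P]
  Y := ![P.X, P.X', qX' P]
  C := P.D * P.R
  ha := fun j n => by
    have h1 := R1 P
    have h2 : 1 ≤ 2 * Real.pi * (P.R : ℝ) ^ (n + 1) := by
      have h3 : 1 ≤ (P.R : ℝ) ^ (n + 1) := one_le_pow₀ h1
      nlinarith [Real.pi_gt_three]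
    refine hb0 P n (by positivity) (le_trans ?_ h1)
    rw [div_le_one (by linarith)]
    exact h2
  hd := (kD1 P).hd

/-- The data of the form. -/
noncomputable def aD2 : W3 P.R (wd P.L) where
  a := fun _ n => P.δ / (2 * Real.pi * (P.R : ℝ) ^ n) * P.g n
  U := ![P.X, P.X', qX P]
  Y := ![P.X, P.X', qX P]
  C := P.D * P.R
  ha := fun j n => by
    have h1 := R1 P
    have h2 : 1 ≤ 2 * Real.pi * (P.R : ℝ) ^ n := by
      have h3 : 1 ≤ (P.R : ℝ) ^ n := one_le_pow₀ h1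
      nlinarith [Real.pi_gt_three]
    have h3 := P.δ0
    refine hb0 P n (by positivity) (le_trans ?_ h1)
    rw [div_le_one (by linarith)]
    exact P.δ1.trans h2
  hd := (kD2 P).hd

/-- The terms of the form. -/
noncomputable def aT : Fin 2 × Fin 6 → Tr P.R (wd P.L) := TW ![aD1 P, aD2 P]

/-- The form is alternating. -/
theorem aT_alt {u v z : V → V} (hu : SPV u) (hv : SPV v) (hz : SPV z) :
    ip (KQ (aT P) u v) z = -ip (KQ (aT P) v u) z := by
  refine (TW_form P.wh.wd _ hu hv hz).unique ((TW_form P.wh.wd _ hv hu hz).neg.congr_fun fun n => ?_)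
  simp only [W3.tm, aD1, aD2, Matrix.cons_val_zero, Matrix.cons_val_one, Matrix.cons_val]
  ring

/-- The operator is the form applied to the curl. -/
theorem kT_eq {u v : V → V} (hu : SPV u) (hv : SPV v) : KQ (aT P) (curl u) v = KQ (kT P) u v := by
  have w := P.wh.wd
  have hR : (0 : ℝ) < P.R := by have := R1 P; linarith
  have hpi := Real.pi_pos
  have c1 : ∀ n, P.X.cs (curl u) n = 2 * Real.pi * (P.R : ℝ) ^ n * (qX P).cs u n := cs_curl P.X w hu
  have c2 : ∀ n, (qX P).cs (curl u) n = 2 * Real.pi * (P.R : ℝ) ^ n * (sX P).cs u n := cs_curl (qX P) w hu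
  have c1' : ∀ n, P.X'.cs (curl u) n = 2 * Real.pi * (P.R : ℝ) ^ (n + 1) * (qX' P).cs u n := fun n => c1 (n + 1)
  have c2' : ∀ n, (qX' P).cs (curl u) n = 2 * Real.pi * (P.R : ℝ) ^ (n + 1) * (sX' P).cs u n := fun n => c2 (n + 1)
  funext x
  refine (TW_series w _ hu.curl hv x).unique ((TW_series w _ hu hv x).congr_fun fun n => ?_)
  have hRn : (P.R : ℝ) ^ n ≠ 0 := (pow_pos hR n).ne'
  simp only [Fin.sum_univ_two, aD1, aD2, kD1, kD2, Matrix.cons_val_zero, Matrix.cons_val_one, Matrix.cons_val,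
    c1, c2, c1', c2']
  have e1 : 1 / (2 * Real.pi * (P.R : ℝ) ^ (n + 1)) * P.g n * (2 * Real.pi * (P.R : ℝ) ^ n * (qX P).cs u n)
      = (P.R : ℝ)⁻¹ * P.g n * (qX P).cs u n := by
    rw [pow_succ]; field_simp
  have e2 : ∀ c : ℝ, 1 / (2 * Real.pi * (P.R : ℝ) ^ (n + 1)) * P.g n * (2 * Real.pi * (P.R : ℝ) ^ (n + 1) * c)
      = 1 * P.g n * c := by
    intro c
    field_simp
  have e3 : ∀ c : ℝ, P.δ / (2 * Real.pi * (P.R : ℝ) ^ n) * P.g n * (2 * Real.pi * (P.R : ℝ) ^ n * c)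
      = P.δ * P.g n * c := by
    intro c
    field_simp
  have e4 : ∀ c : ℝ, P.δ / (2 * Real.pi * (P.R : ℝ) ^ n) * P.g n * (2 * Real.pi * (P.R : ℝ) ^ (n + 1) * c)
      = P.δ * P.R * P.g n * c := by
    intro c
    rw [pow_succ]; field_simp
  simp only [e1, e2, e3, e4]

/-- The trilinear form of the operator. -/
theorem kT_form {u v z : V → V} (hu : SPV u) (hv : SPV v) (hz : SPV z) :
    HasSum (fun n => (P.R : ℝ)⁻¹ * P.g n * qo P u n * (P.co v (n + 1) * qo P z (n + 1) - qo P v (n + 1) * P.co z (n + 1))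
      + P.g n * qo P u (n + 1) * (qo P v (n + 1) * P.co z n - P.co v n * qo P z (n + 1))
      + P.g n * so P u (n + 1) * (P.co v n * P.co z (n + 1) - P.co v (n + 1) * P.co z n)
      + P.δ * P.g n * qo P u n * (P.co v (n + 1) * qo P z n - qo P v n * P.co z (n + 1))
      + P.δ * P.R * P.g n * qo P u (n + 1) * (qo P v n * P.co z n - P.co v n * qo P z n)
      + P.δ * P.g n * so P u n * (P.co v n * P.co z (n + 1) - P.co v (n + 1) * P.co z n)) (ip (KQ (kT P) u v) z) := by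
  refine (TW_form P.wh.wd _ hu hv hz).congr_fun fun n => ?_
  have c0 : ∀ (v : V → V) n, P.X.cs v n = P.co v n := P.cs_eq
  have c0' : ∀ (v : V → V) n, P.X'.cs v n = P.co v (n + 1) := P.cs_eq'
  have c1 : ∀ (v : V → V) n, (qX' P).cs v n = qo P v (n + 1) := fun _ _ => rfl
  have c2 : ∀ (v : V → V) n, (sX' P).cs v n = so P v (n + 1) := fun _ _ => rfl
  have c3 : ∀ (v : V → V) n, (qX P).cs v n = qo P v n := fun _ _ => rfl
  have c4 : ∀ (v : V → V) n, (sX P).cs v n = so P v n := fun _ _ => rfl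
  simp only [W3.tm, kD1, kD2, Matrix.cons_val_zero, Matrix.cons_val_one, Matrix.cons_val, c0, c0', c1, c2, c3, c4]
  ring

end Pool.Agent.N980.WT
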