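import Pool.Agent.N980.WT.Pf3
import Pool.Agent.N980.WT.Lb2
import Pool.Agent.N980.WQ.Main2

/-!
The alternating form as a series; its properties.
-/

open MeasureTheory Set Filter Topology
open scoped ContDiff

set_option linter.unusedVariables false

namespace Pool.Agent.N980.WT

open Pool.Agent.N980.NU
open Pool.Agent.N980.WP hiding Sys St Cond Good
open Pool.Agent.N980.WQ
open Pool.Agent.N980.CB (one_le_R R_pos inn out FF gG Par zz zz16 par_zz energy_nonneg rpow_swap parseval)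
open Pool.Agent.H356R3.NS (K C3 E3 R3 ex SN Sym RD TT SF SFam Fam cf' at' nk pw fj dS Bf dt)

variable {R : ℕ} {σ κ G : ℝ}

/-- The field representing the alternating form. -/
noncomputable def wdg (a b c w v : V → V) (x : V) : V :=
  (ip w a * ip v b - ip w b * ip v a) • c x + (ip w b * ip v c - ip w c * ip v b) • a x
    + (ip w c * ip v a - ip w a * ip v c) • b x

/-- The bilinear operator of the alternating form. -/
theorem AX_eq (P : Qm) {w v : V → V} (hw : SPV w) (hv : SPV v) (x : V) :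
    KQ (aT P) w v x = ∑' n : ℕ, ((P.g n / (2 * Real.pi * (P.R : ℝ) ^ (n + 1))) •
      wdg (P.X.F n) (P.X.F (n + 1)) ((qX P).F (n + 1)) w v x
    + (P.δ * P.g n / (2 * Real.pi * (P.R : ℝ) ^ n)) •
      wdg (P.X.F n) (P.X.F (n + 1)) ((qX P).F n) w v x) := by
  have h1 := TW_series P.wh.wd ![aD1 P, aD2 P] hw hv x
  have h2 : KQ (aT P) w v x = KQ (TW ![aD1 P, aD2 P]) w v x := rfl
  rw [h2, ← h1.tsum_eq]
  refine tsum_congr fun n => ?_
  have f1 : P.X'.F n = P.X.F (n + 1) := rfl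
  have f3 : (qX' P).F n = (qX P).F (n + 1) := rfl
  have c0 : ∀ u : V → V, P.X.cs u n = ip u (P.X.F n) := fun u => rfl
  have c1 : ∀ u : V → V, P.X'.cs u n = ip u (P.X.F (n + 1)) := fun u => rfl
  have c2 : ∀ u : V → V, (qX P).cs u n = ip u ((qX P).F n) := fun u => rfl
  have c3 : ∀ u : V → V, (qX' P).cs u n = ip u ((qX P).F (n + 1)) := fun u => rfl
  simp only [Fin.sum_univ_two, aD1, aD2, Matrix.cons_val_zero, Matrix.cons_val_one, Matrix.cons_val, f1, f3,
    c0, c1, c2, c3, wdg]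
  module

theorem gn_eq (h : PC R σ κ) (hG : 0 < G) {X : Fm R (wd (Lw R κ))} (hX : PkF h.wh.wd X) (n : ℕ) :
    (qm h hG hX).g n = G * ((R : ℝ) ^ n) ^ σ := by
  rw [rpow_swap]; rfl

theorem aκ (h : PC R σ κ) (hG : 0 < G) {X : Fm R (wd (Lw R κ))} (hX : PkF h.wh.wd X) :
    ∀ t n, |((aT (qm h hG hX)) t).κ n| ≤ G * ((R : ℝ) ^ n) ^ (σ - 1) := by
  set P := qm h hG hX with hP
  have hR0 := h.R0
  have hR1 := h.R1
  have e : ∀ n, P.g n = G * ((R : ℝ) ^ n) ^ (σ - 1) * (R : ℝ) ^ n := by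
    intro n
    have h1 : (0 : ℝ) < (R : ℝ) ^ n := pow_pos hR0 n
    rw [gn_eq h hG hX n, Real.rpow_sub_one h1.ne']
    field_simp
  have h0 : ∀ n, 0 ≤ G * ((R : ℝ) ^ n) ^ (σ - 1) := fun n => mul_nonneg hG.le (Real.rpow_nonneg (by positivity) _)
  have hpi := Real.pi_gt_three
  have k1 : ∀ n, |1 / (2 * Real.pi * (R : ℝ) ^ (n + 1)) * P.g n| ≤ G * ((R : ℝ) ^ n) ^ (σ - 1) := by
    intro n
    have h1 : (0 : ℝ) < (R : ℝ) ^ n := pow_pos hR0 n
    have h2 := h0 n
    rw [abs_of_nonneg (mul_nonneg (by positivity) (P.g0 n)), e, one_div, inv_mul_eq_div, div_le_iff₀ (by positivity)]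
    have h3 : (R : ℝ) ^ n * 1 ≤ (R : ℝ) ^ n * R := by gcongr
    refine mul_le_mul_of_nonneg_left ?_ h2
    rw [pow_succ]
    nlinarith
  have k2 : ∀ n, |P.δ / (2 * Real.pi * (R : ℝ) ^ n) * P.g n| ≤ G * ((R : ℝ) ^ n) ^ (σ - 1) := by
    intro n
    have h1 : (0 : ℝ) < (R : ℝ) ^ n := pow_pos hR0 n
    have h2 := h0 n
    have hδ0 := P.δ0
    have hδ1 := P.δ1
    rw [abs_of_nonneg (mul_nonneg (by positivity) (P.g0 n)), e, div_mul_eq_mul_div, div_le_iff₀ (by positivity)]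
    have h4 : P.δ * (R : ℝ) ^ n ≤ 2 * Real.pi * (R : ℝ) ^ n := by
      have : P.δ ≤ 2 * Real.pi := by linarith
      gcongr
    calc P.δ * (G * ((R : ℝ) ^ n) ^ (σ - 1) * (R : ℝ) ^ n) = G * ((R : ℝ) ^ n) ^ (σ - 1) * (P.δ * (R : ℝ) ^ n) := by ring
      _ ≤ G * ((R : ℝ) ^ n) ^ (σ - 1) * (2 * Real.pi * (R : ℝ) ^ n) := by gcongr
  rintro ⟨i, j⟩ n
  fin_cases i <;> fin_cases j
  · exact k1 n
  · show |-(1 / (2 * Real.pi * (R : ℝ) ^ (n + 1)) * P.g n)| ≤ _
    rw [abs_neg]; exact k1 n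
  · exact k1 n
  · show |-(1 / (2 * Real.pi * (R : ℝ) ^ (n + 1)) * P.g n)| ≤ _
    rw [abs_neg]; exact k1 n
  · exact k1 n
  · show |-(1 / (2 * Real.pi * (R : ℝ) ^ (n + 1)) * P.g n)| ≤ _
    rw [abs_neg]; exact k1 n
  · exact k2 n
  · show |-(P.δ / (2 * Real.pi * (R : ℝ) ^ n) * P.g n)| ≤ _
    rw [abs_neg]; exact k2 n
  · exact k2 n
  · show |-(P.δ / (2 * Real.pi * (R : ℝ) ^ n) * P.g n)| ≤ _
    rw [abs_neg]; exact k2 n
  · exact k2 n
  · show |-(P.δ / (2 * Real.pi * (R : ℝ) ^ n) * P.g n)| ≤ _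
    rw [abs_neg]; exact k2 n

/-- The values have mean zero. -/
theorem mean_zero (P : Qm) {w v : V → V} (hw : SPV w) (hv : SPV v) (i : Fin 3) :
    ∫ x in cube, KQ (aT P) w v x i = 0 := by
  set e : V → V := fun _ => Pi.single i 1 with he
  have hR : ∀ n : ℕ, 2 * (0 : ℝ) < (P.R : ℝ) ^ n := fun n => by
    rw [mul_zero]; exact CB.R_pos P.wh.wd.hR n
  have h1 : ip (KQ (aT P) w v) e = ∫ x in cube, KQ (aT P) w v x i := by
    unfold ip
    congr 1
    funext x
    rw [Finset.sum_eq_single i]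
    · rw [he]; simp
    · intro j _ hj
      rw [he]
      simp [hj]
    · intro h; exact absurd (Finset.mem_univ i) h
  rw [← h1]
  have hform := TW_form P.wh.wd ![aD1 P, aD2 P] hw hv (SPV_const (Pi.single i 1))
  have e0 : (![aD1 P, aD2 P] : Fin 2 → W3 P.R (wd P.L)) 0 = aD1 P := rfl
  have e1 : (![aD1 P, aD2 P] : Fin 2 → W3 P.R (wd P.L)) 1 = aD2 P := rfl
  rw [e0, e1] at hform
  have hc : ∀ (X : Fm P.R (wd P.L)) n, X.cs e n = 0 := fun X n =>
    BL_cs X (SPV_const (Pi.single i 1)).cont (BL_const (Pi.single i 1)) (hR n)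
  have hz : ∀ D : W3 P.R (wd P.L), ∀ n, D.tm w v e n = 0 := by
    intro D n
    unfold W3.tm
    rw [hc, hc, hc]
    ring
  refine hform.unique ?_
  have : (fun n => (aD1 P).tm w v e n + (aD2 P).tm w v e n) = fun _ => 0 := by
    funext n
    rw [hz, hz, add_zero]
  show HasSum (fun n => (aD1 P).tm w v e n + (aD2 P).tm w v e n) 0
  rw [this]
  exact hasSum_zero

/-! ### fields that are independent of a coordinate -/

/-- The coefficients of a field that is independent of a coordinate. -/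
theorem fco_flat {w : V → V} (hw : SPV w) {j : Fin 3} (hj : ∀ x (s : ℝ), w (x + Pi.single j s) = w x) {k : K}
    (hk : k j ≠ 0) : fco w k = 0 := by
  funext i
  have h1 : pd j (fun y => w y i) = fun _ => 0 := by
    funext x
    unfold pd
    have hd : DifferentiableAt ℝ (fun y => w y i) x := by
      have := (contDiff_pi.1 hw.1) i
      exact (this.differentiable (by norm_num)) x
    have h2 : HasDerivAt (fun s : ℝ => w (x + s • Pi.single j (1 : ℝ)) i) (fderiv ℝ (fun y => w y i) x (Pi.single j 1)) 0 := by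
      have h3 : HasDerivAt (fun s : ℝ => x + s • (Pi.single j (1 : ℝ) : V)) (Pi.single j 1) 0 := by
        simpa using ((hasDerivAt_id (0 : ℝ)).smul_const (Pi.single j (1 : ℝ) : V)).const_add x
      have h4 : HasFDerivAt (fun y => w y i) (fderiv ℝ (fun y => w y i) x) (x + (0 : ℝ) • (Pi.single j (1 : ℝ) : V)) := by
        rw [zero_smul, add_zero]
        exact hd.hasFDerivAt
      exact h4.comp_hasDerivAt (0 : ℝ) h3
    have h5 : (fun s : ℝ => w (x + s • Pi.single j (1 : ℝ)) i) = fun _ => w x i := by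
      funext s
      have : s • (Pi.single j (1 : ℝ) : V) = Pi.single j s := by
        rw [← Pi.single_smul', smul_eq_mul, mul_one]
      rw [this, hj]
    rw [h5] at h2
    exact h2.unique (hasDerivAt_const _ _)
  have h2 := fr_pd' hw i j k
  rw [h1] at h2
  have h3 : H459R3.NS.fr (fun _ : V => (0 : ℝ)) k = 0 := by
    unfold H459R3.NS.fr H459R3.NS.fc
    simp
  rw [h3] at h2
  have h4 : fj k j ≠ 0 := by
    unfold H356R3.NS.fj
    have hk' : (k j : ℂ) ≠ 0 := by exact_mod_cast hk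
    have hpi : (Real.pi : ℂ) ≠ 0 := by exact_mod_cast Real.pi_ne_zero
    simp [hk', hpi]
  rcases mul_eq_zero.1 h2.symm with h5 | h5
  · exact absurd h5 h4
  · exact h5

/-- The coefficient on a packet of a field that is independent of a coordinate. -/
theorem cs_flat {ℓ : ℕ → ℝ} (Y : Fm R ℓ) (hY : ∀ n k, Y.ψ n k ≠ 0 → ∀ j, k j ≠ 0) {w : V → V} (hw : SPV w) {j : Fin 3}
    (hj : ∀ x (s : ℝ), w (x + Pi.single j s) = w x) (n : ℕ) : Y.cs w n = 0 := by
  rw [Y.cs_eq hw.cont]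
  unfold Fm.co
  have : ∀ k : K, ∑ i, fco w k i * star (Y.ψ n k i) = 0 := by
    intro k
    by_cases hk : Y.ψ n k = 0
    · rw [hk]; simp
    · rw [fco_flat hw hj (hY n k hk j)]
      simp
  rw [tsum_congr this, tsum_zero, Complex.zero_re]

/-- The form vanishes if one of the fields is independent of a coordinate. -/
theorem flat (P : Qm) {w v : V → V} (hw : SPV w) (hv : SPV v) {j : Fin 3}
    (hj : ∀ x (s : ℝ), w (x + Pi.single j s) = w x) : KQ (aT P) w v = 0 := by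
  funext x
  rw [AX_eq P hw hv]
  have hX : ∀ n, ip w (P.X.F n) = 0 := fun n => cs_flat P.X P.pk.nz hw hj n
  have hq : ∀ n, ip w ((qX P).F n) = 0 := fun n => cs_flat (qX P) (fun n k hk => P.pk.nz n k fun h0 => hk (by
    show cl _ k (P.X.ψ n k) = 0
    rw [h0, cl_zero])) hw hj n
  have : ∀ n, wdg (P.X.F n) (P.X.F (n + 1)) ((qX P).F (n + 1)) w v x = 0 ∧
      wdg (P.X.F n) (P.X.F (n + 1)) ((qX P).F n) w v x = 0 := by
    intro n
    unfold wdg
    constructor
    · rw [hX, hX, hq]; simp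
    · rw [hX, hX, hq]; simp
  simp only [(this _).1, (this _).2, smul_zero, add_zero, tsum_zero]
  rfl

end Pool.Agent.N980.WT
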