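import Pool.Agent.N980.WT.Fe2

/-!
The scalar coefficients of the packets; none of the coordinates of their frequencies vanishes.
-/

open MeasureTheory Set Filter Topology
open scoped ContDiff

set_option linter.unusedVariables false

namespace Pool.Agent.N980.WT

open Pool.Agent.N980.NU
open Pool.Agent.N980.WP
open Pool.Agent.N980.WQ
open Pool.Agent.H356R3.NS (K C3 E3 R3 ex SN Sym RD TT SF SFam Fam cf' at' nk pw fj dS Bf dt)

/-- The factors of the coefficients. -/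
noncomputable def rg (N L L' : ℕ) (i : Fin 3) (j : ℤ) : ℝ :=
  (![hp N L, hp (L + 1) L, hp (L' + 1) L'] : Fin 3 → ℤ → ℝ) i j

/-- The intervals of the frequencies. -/
noncomputable def rI (N L L' : ℕ) (i : Fin 3) : Finset ℤ := (![I0 N L, I0 (L + 1) L, I0 (L' + 1) L'] : Fin 3 → Finset ℤ) i

/-- The scalar coefficients. -/
noncomputable def rc (N L L' : ℕ) (k : K) : ℝ := ∏ i, rg N L L' i (k i)

variable {N L L' : ℕ}

theorem rc_eq (N L L' : ℕ) (k : K) : rc N L L' k = hp N L (k 0) * hp (L + 1) L (k 1) * hp (L' + 1) L' (k 2) := by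
  unfold rc
  rw [Fin.prod_univ_three]
  rfl

theorem rc_nonneg (N L L' : ℕ) (k : K) : 0 ≤ rc N L L' k := by
  rw [rc_eq]
  have := hp_nonneg N L (k 0)
  have := hp_nonneg (L + 1) L (k 1)
  have := hp_nonneg (L' + 1) L' (k 2)
  positivity

theorem rc_le (N L L' : ℕ) (k : K) : rc N L L' k ≤ 8 := by
  rw [rc_eq]
  have a1 := hp_nonneg N L (k 0)
  have a2 := hp_nonneg (L + 1) L (k 1)
  have a3 := hp_nonneg (L' + 1) L' (k 2)
  have b1 := hp_le N L (k 0)
  have b2 := hp_le (L + 1) L (k 1)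
  have b3 := hp_le (L' + 1) L' (k 2)
  calc hp N L (k 0) * hp (L + 1) L (k 1) * hp (L' + 1) L' (k 2) ≤ 2 * 2 * 2 := by gcongr
    _ = 8 := by norm_num

theorem rc_neg (N L L' : ℕ) (k : K) : rc N L L' (-k) = rc N L L' k := by
  rw [rc_eq, rc_eq]
  simp only [Pi.neg_apply, hp_neg]

theorem rc_supp {k : K} (h : rc N L L' k ≠ 0) :
    (N : ℤ) - L ≤ |k 0| ∧ |k 0| ≤ N + L ∧ 1 ≤ |k 1| ∧ |k 1| ≤ 2 * L + 1 ∧ 1 ≤ |k 2| ∧ |k 2| ≤ 2 * L' + 1 := by
  rw [rc_eq] at h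
  have h1 := hp_abs (left_ne_zero_of_mul (left_ne_zero_of_mul h))
  have h2 := hp_abs (right_ne_zero_of_mul (left_ne_zero_of_mul h))
  have h3 := hp_abs (right_ne_zero_of_mul h)
  push_cast at h1 h2 h3
  refine ⟨h1.1, h1.2, by linarith [h2.1], by linarith [h2.2], by linarith [h3.1], by linarith [h3.2]⟩

theorem rc_fin (N L L' : ℕ) : (Function.support (rc N L L')).Finite := by
  classical
  refine (Finset.finite_toSet (Fintype.piFinset (rI N L L'))).subset fun k hk => ?_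
  rw [Finset.mem_coe, Fintype.mem_piFinset]
  have h : rc N L L' k ≠ 0 := hk
  rw [rc_eq] at h
  have b0 : k 0 ∈ I0 N L := by
    by_contra hc
    exact left_ne_zero_of_mul (left_ne_zero_of_mul h) (hp_out hc)
  have b1 : k 1 ∈ I0 (L + 1) L := by
    by_contra hc
    exact right_ne_zero_of_mul (left_ne_zero_of_mul h) (hp_out hc)
  have b2 : k 2 ∈ I0 (L' + 1) L' := by
    by_contra hc
    exact right_ne_zero_of_mul h (hp_out hc)
  intro i
  fin_cases i
  · exact b0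
  · exact b1
  · exact b2

theorem rg_out (N L L' : ℕ) (i : Fin 3) (j : ℤ) (h : j ∉ rI N L L' i) : rg N L L' i j = 0 := by
  fin_cases i
  · exact hp_out h
  · exact hp_out h
  · exact hp_out h

theorem rc_l1 (N L L' : ℕ) : ∑' k : K, rc N L L' k = 8 * (((L : ℝ) + 1) ^ 2 * ((L' : ℝ) + 1)) := by
  unfold rc
  rw [tsum_pi3 (rg N L L') (rI N L L') (rg_out N L L'), Fin.prod_univ_three]
  have e0 : ∑ j ∈ rI N L L' 0, rg N L L' 0 j = 2 * ((L : ℝ) + 1) := hp_sum N L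
  have e1 : ∑ j ∈ rI N L L' 1, rg N L L' 1 j = 2 * ((L : ℝ) + 1) := hp_sum (L + 1) L
  have e2 : ∑ j ∈ rI N L L' 2, rg N L L' 2 j = 2 * ((L' : ℝ) + 1) := hp_sum (L' + 1) L'
  rw [e0, e1, e2]
  ring

theorem rc_l2 (h : L < N) : ∑' k : K, rc N L L' k ^ 2 = 8 * (fS L ^ 2 * fS L') := by
  have e : ∀ k : K, rc N L L' k ^ 2 = ∏ i, (fun i j => rg N L L' i j ^ 2) i (k i) := by
    intro k
    unfold rc
    rw [← Finset.prod_pow]
  simp only [e]
  rw [tsum_pi3 (fun i j => rg N L L' i j ^ 2) (rI N L L') (fun i j hj => by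
    simp only [rg_out N L L' i j hj]; norm_num), Fin.prod_univ_three]
  have e0 : ∑ j ∈ rI N L L' 0, rg N L L' 0 j ^ 2 = 2 * fS L := hp_sq_sum h
  have e1 : ∑ j ∈ rI N L L' 1, rg N L L' 1 j ^ 2 = 2 * fS L := hp_sq_sum (Nat.lt_succ_self L)
  have e2 : ∑ j ∈ rI N L L' 2, rg N L L' 2 j ^ 2 = 2 * fS L' := hp_sq_sum (Nat.lt_succ_self L')
  rw [e0, e1, e2]
  ring

theorem hp_phys (N L : ℕ) (y : ℝ) : ∑ j ∈ I0 N L, (hp N L j : ℂ) * Complex.exp (2 * Real.pi * Complex.I * ((j : ℂ) * (y : ℂ)))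
    = ((2 * W0 N L y : ℝ) : ℂ) := by
  have h1 := hp_fourier N L (fun j => Complex.exp (2 * Real.pi * Complex.I * ((j : ℂ) * (y : ℂ))))
  rw [h1]
  have h3 : ∀ m : ℤ, (fw L m : ℂ) * Complex.exp (2 * Real.pi * Complex.I * (((m + N : ℤ) : ℂ) * (y : ℂ)))
      = Complex.exp ((2 * Real.pi * (N * y) : ℝ) * Complex.I)
        * ((fw L m : ℂ) * Complex.exp (2 * Real.pi * Complex.I * ((m : ℂ) * (y : ℂ)))) := by
    intro m
    rw [mul_left_comm (Complex.exp _) (fw L m : ℂ), ← Complex.exp_add]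
    congr 2
    push_cast
    ring
  have h4 : ∀ m : ℤ, (fw L m : ℂ) * Complex.exp (2 * Real.pi * Complex.I * (((m - N : ℤ) : ℂ) * (y : ℂ)))
      = Complex.exp (-(2 * Real.pi * (N * y) : ℝ) * Complex.I)
        * ((fw L m : ℂ) * Complex.exp (2 * Real.pi * Complex.I * ((m : ℂ) * (y : ℂ)))) := by
    intro m
    rw [mul_left_comm (Complex.exp _) (fw L m : ℂ), ← Complex.exp_add]
    congr 2
    push_cast
    ring
  have h5 : ∑ m ∈ I1 L, (fw L m : ℂ) * Complex.exp (2 * Real.pi * Complex.I * ((m : ℂ) * (y : ℂ)))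
    = (fej L y : ℂ) := fej_fourier L y
  simp only [h3, h4]
  rw [← Finset.mul_sum, ← Finset.mul_sum, h5, Complex.exp_mul_I, Complex.exp_mul_I, Complex.cos_neg, Complex.sin_neg]
  unfold W0
  push_cast
  ring

/-- The scalar packet in the physical space. -/
theorem rc_phys (N L L' : ℕ) (x : V) : ∑' k : K, (rc N L L' k : ℂ) * ex k x
    = ((8 * T3 (W0 N L) (W0 (L + 1) L) (W0 (L' + 1) L') x : ℝ) : ℂ) := by
  have e : ∀ k : K, (rc N L L' k : ℂ) * ex k x =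
      ∏ i, (fun i (j : ℤ) => (rg N L L' i j : ℂ) * Complex.exp (2 * Real.pi * Complex.I * ((j : ℂ) * (x i : ℂ)))) i (k i) := by
    intro k
    unfold rc
    rw [H356R3.NS.ex_prod, Finset.prod_mul_distrib]
    push_cast
    ring
  simp only [e]
  rw [tsum_pi3 (fun i (j : ℤ) => (rg N L L' i j : ℂ)
      * Complex.exp (2 * Real.pi * Complex.I * ((j : ℂ) * (x i : ℂ)))) (rI N L L') (fun i j hj => by
    simp only [rg_out N L L' i j hj]; norm_num), Fin.prod_univ_three]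
  have e0 : ∑ j ∈ rI N L L' 0, (rg N L L' 0 j : ℂ) * Complex.exp (2 * Real.pi * Complex.I * ((j : ℂ) * (x 0 : ℂ)))
      = ((2 * W0 N L (x 0) : ℝ) : ℂ) := hp_phys N L (x 0)
  have e1 : ∑ j ∈ rI N L L' 1, (rg N L L' 1 j : ℂ) * Complex.exp (2 * Real.pi * Complex.I * ((j : ℂ) * (x 1 : ℂ)))
      = ((2 * W0 (L + 1) L (x 1) : ℝ) : ℂ) := hp_phys (L + 1) L (x 1)
  have e2 : ∑ j ∈ rI N L L' 2, (rg N L L' 2 j : ℂ) * Complex.exp (2 * Real.pi * Complex.I * ((j : ℂ) * (x 2 : ℂ)))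
      = ((2 * W0 (L' + 1) L' (x 2) : ℝ) : ℂ) := hp_phys (L' + 1) L' (x 2)
  rw [e0, e1, e2]
  unfold T3
  push_cast
  ring

end Pool.Agent.N980.WT
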