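import Pool.Agent.N980.WT.Lb2
import Pool.Agent.N980.WQ.Fin3

/-!
The operator with a sign; the data.
-/

open MeasureTheory Set Filter Topology
open scoped ContDiff

set_option linter.unusedVariables false

namespace Pool.Agent.N980.WT

open Pool.Agent.N980.NU
open Pool.Agent.N980.WP hiding Sys St Cond
open Pool.Agent.N980.WQ
open Pool.Agent.N980.CB (one_le_R R_pos inn out FF gG Par zz zz16 par_zz energy_nonneg rpow_swap qq qq_pos Rap energy_bd dv_add sel)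

variable {R : ℕ} {σ κ ν T G : ℝ} {u : ℝ → V → V} {p : ℝ → V → ℝ} {X : Fm R (wd (Lw R κ))}

/-- The chain system of a smooth solution. -/
theorem sysS (h : PD R σ κ) (hG : 0 < G) (hX : PkF h.pc.wh.wd X) {s : ℝ} (hs1 : |s| = 1) {Kf : (V → V) → (V → V) → V → V} (hOk : Opr Kf)
    (hKf : ∀ v, SPV v → Kf v v = s • KQ (kT (qm h.pc hG hX)) v v) (hs : Sol ν Kf T u p) (hν : 0 < ν) {E b : ℝ}
    (hE : energy (u 0) ≤ E) (hb : 0 < b) {N : ℕ}
    (hN : ∀ k : ℕ, 16 * G * b ^ 2 * HH R σ κ ^ k ≤ b0 ν G E (dd X) * ((R : ℝ) ^ (σ - κ)) ^ (max k N)) :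
    Sys R ((R : ℝ) ^ (σ - κ)) ((R : ℝ) ^ (2 - σ + κ)) ((R : ℝ) ^ σ) (zz ((R : ℝ) ^ σ)) G (4 * Real.pi ^ 2 * ν)
      (2 * b0 ν G E (dd X)) T b N (th (qm h.pc hG hX)) (fun n t => s * (qm h.pc hG hX).co (u t) n)
      (fun n t => qo (qm h.pc hG hX) (u t) n) := by
  have hD0 : 0 ≤ dd X := dd_nonneg X
  set P := qm h.pc hG hX with hP
  have hE0 : 0 ≤ E := (energy_nonneg _).trans hE
  have hpi := Real.pi_pos
  have hw := h.pc.wh.wd
  have hss := sgn_abs hs1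
  have hKip : ∀ {v F : V → V}, SPV v → SPV F → ip (Kf v v) F = s * ip (KQ (kT P) v v) F := by
    intro v F hv hF
    rw [hKf v hv, ip_smul]
  have hb00 : 0 ≤ b0 ν G E (dd X) := by
    unfold b0
    have := Real.sqrt_nonneg E
    positivity
  have hA1 : 1 ≤ (R : ℝ) ^ (σ - κ) := by linarith [h.P2]
  have hPR : P.R = R := rfl
  have hPL : P.L = Lw R κ := rfl
  have hδ : P.δ = zz ((R : ℝ) ^ σ) ^ 16 := (zz16 _).symm
  have hg : P.g = gG G ((R : ℝ) ^ σ) := rfl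
  refine ⟨h.pc.par, h.RQ', h.QR, h.P2, ?_, h.PQ, h.pc.RΛ, hG, by positivity, by positivity, ?_,
    fun n => (th_le P n).trans (by norm_num), ?_, ?_, ?_,
    ?_, ?_, ?_⟩
  · have := h.pc.R4
    exact_mod_cast (by omega : 2 ≤ R)
  · intro k
    have := th_ge P k
    linarith
  · intro k
    exact (hs.ip_cont (F := P.X.F k) (P.X.spv k)).const_smul s
  · intro k t ht hy
    have hI : t ∈ Ico 0 T := ⟨ht.1.le, ht.2⟩
    have hspv := hs.spv hI
    have hFs := P.X.spv k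
    have hdF : ∀ x, dv (P.X.F k) x = 0 := fun x => dv_fd (P.X.RD k) (fun q => P.Dv k q) x
    have hd := hs.ip_deriv hOk hFs hdF ht
    have hen := (hs.energy_le hOk hν hI).trans hE
    have e1 : |ip (u t) (lap (P.X.F k)) + 4 * Real.pi ^ 2 * ((R : ℝ) ^ k) ^ 2 * P.co (u t) k|
        ≤ 280 * ((R : ℝ) ^ k * wd (Lw R κ) k) * Real.sqrt (energy (u t)) := pX_lap P hspv k
    have hRk : (0 : ℝ) < (R : ℝ) ^ k := pow_pos h.pc.R0 k
    have hwk := hw.pos k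
    have e1' : |ip (u t) (lap (P.X.F k)) + 4 * Real.pi ^ 2 * ((R : ℝ) ^ k) ^ 2 * P.co (u t) k|
        ≤ 560 * ((R : ℝ) ^ k * wd (Lw R κ) k) * Real.sqrt (energy (u t)) := by
      refine e1.trans ?_
      have := Real.sqrt_nonneg (energy (u t))
      gcongr
      norm_num
    have e2 : ∀ x i j, |pd j (fun y => P.X.F k y i) x| ≤ dd X * ((R : ℝ) ^ k * wd (Lw R κ) k) := by
      intro x i j
      exact pd_p P k x i j
    have e5 := ns_err h (dd_nonneg X) hspv hFs hen hν k e1' e2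
    have hEP := eP_bound h hG hX hspv hen hb hy
    rw [← hP] at hEP
    have hfin : ∀ e' : ℝ, |e'| ≤ 44 * (G * E) * ((R : ℝ) ^ (σ - κ)) ^ k + 16 * G * b ^ 2 * HH R σ κ ^ k →
        |s * (ν * (ip (u t) (lap (P.X.F k)) + 4 * Real.pi ^ 2 * ((R : ℝ) ^ k) ^ 2 * P.co (u t) k) + cvt (u t) (P.X.F k)) + e'|
          ≤ 2 * b0 ν G E (dd X) * ((R : ℝ) ^ (σ - κ)) ^ (max k N) := by
      intro e' he'
      have h1 : ((R : ℝ) ^ (σ - κ)) ^ k ≤ ((R : ℝ) ^ (σ - κ)) ^ (max k N) :=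
        pow_le_pow_right₀ hA1 (le_max_left _ _)
      have h2 := hN k
      have h3 : b0 ν G E (dd X) * ((R : ℝ) ^ (σ - κ)) ^ k ≤ b0 ν G E (dd X) * ((R : ℝ) ^ (σ - κ)) ^ (max k N) := by gcongr
      have h4 : b0 ν G E (dd X) * ((R : ℝ) ^ (σ - κ)) ^ k
          = 3 / 2 * (560 * ν * Real.sqrt E + 3 * dd X * E) * ((R : ℝ) ^ (σ - κ)) ^ k
            + 44 * (G * E) * ((R : ℝ) ^ (σ - κ)) ^ k := by unfold b0; ring
      have h5 := abs_add_le (s * (ν * (ip (u t) (lap (P.X.F k)) + 4 * Real.pi ^ 2 * ((R : ℝ) ^ k) ^ 2 * P.co (u t) k)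
        + cvt (u t) (P.X.F k))) e'
      rw [abs_mul, hs1, one_mul] at h5
      linarith
    have e6 : (fun s => ip (u s) (P.X.F k)) = fun s => P.co (u s) k := funext fun s => P.cs_eq (u s) k
    rw [e6] at hd
    have hd' := hd.const_mul s
    rw [inn_sgn hs1 (gG G ((R : ℝ) ^ σ)) (zz ((R : ℝ) ^ σ) ^ 16) (fun n t => P.co (u t) n) k t,
      out_sgn hs1 (gG G ((R : ℝ) ^ σ)) (zz ((R : ℝ) ^ σ) ^ 16) (fun n t => P.co (u t) n) k t]
    rw [hKip hspv hFs] at hd'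
    cases k with
    | zero =>
      have hk : ip (KQ (kT P) (u t) (u t)) (P.X.F 0)
          = -(gG G ((R : ℝ) ^ σ) 0 * (P.δ * P.co (u t) 0 + P.co (u t) 1) * P.co (u t) 1)
      + eP (gG G ((R : ℝ) ^ σ) 0) 0 P.δ (R : ℝ)⁻¹ R 0 (P.co (u t) 0) (P.co (u t) 1) 0 (qo P (u t) 0)
        (qo P (u t) 1) 0 (so P (u t) 0) (so P (u t) 1) := kT_co0 P hspv
      refine ⟨_, hfin _ hEP.2, hd'.congr_deriv ?_⟩
      rw [hk]
      simp only [inn, out, FF]
      rw [hδ]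
      simp only [zero_add]
      rw [← hδ]
      linear_combination (-(gG G ((R : ℝ) ^ σ) 0 * (P.δ * P.co (u t) 0 + P.co (u t) 1) * P.co (u t) 1)
      + eP (gG G ((R : ℝ) ^ σ) 0) 0 P.δ (R : ℝ)⁻¹ R 0 (P.co (u t) 0) (P.co (u t) 1) 0 (qo P (u t) 0)
        (qo P (u t) 1) 0 (so P (u t) 0) (so P (u t) 1)) * hss
    | succ m =>
      have hk : ip (KQ (kT P) (u t) (u t)) (P.X.F (m + 1))
          = gG G ((R : ℝ) ^ σ) m * (P.δ * P.co (u t) m + P.co (u t) (m + 1)) * P.co (u t) m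
      - gG G ((R : ℝ) ^ σ) (m + 1) * (P.δ * P.co (u t) (m + 1) + P.co (u t) (m + 2)) * P.co (u t) (m + 2)
      + eP (gG G ((R : ℝ) ^ σ) (m + 1)) (gG G ((R : ℝ) ^ σ) m) P.δ (R : ℝ)⁻¹ R (P.co (u t) m) (P.co (u t) (m + 1))
        (P.co (u t) (m + 2)) (qo P (u t) m) (qo P (u t) (m + 1)) (qo P (u t) (m + 2)) (so P (u t) m)
        (so P (u t) (m + 1)) (so P (u t) (m + 2)) := kT_co1 P hspv m
      refine ⟨_, hfin _ (hEP.1 m), hd'.congr_deriv ?_⟩
      rw [hk]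
      simp only [inn, out, FF]
      have e7 : m + 1 + 1 = m + 2 := rfl
      rw [← hδ, e7]
      linear_combination (gG G ((R : ℝ) ^ σ) m * (P.δ * P.co (u t) m + P.co (u t) (m + 1)) * P.co (u t) m
      - gG G ((R : ℝ) ^ σ) (m + 1) * (P.δ * P.co (u t) (m + 1) + P.co (u t) (m + 2)) * P.co (u t) (m + 2)
      + eP (gG G ((R : ℝ) ^ σ) (m + 1)) (gG G ((R : ℝ) ^ σ) m) P.δ (R : ℝ)⁻¹ R (P.co (u t) m) (P.co (u t) (m + 1))
        (P.co (u t) (m + 2)) (qo P (u t) m) (qo P (u t) (m + 1)) (qo P (u t) (m + 2)) (so P (u t) m)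
        (so P (u t) (m + 1)) (so P (u t) (m + 2))) * hss
  · intro T1 hT1
    obtain ⟨D, hD0, hD⟩ := hs.cs_dec P.X hw hT1 2
    refine ⟨D, fun k t ht => ?_⟩
    rw [le_div_iff₀ (by have := h.pc.R0; positivity), abs_mul, hs1, one_mul]
    have := hD t ht k
    rw [P.cs_eq] at this
    exact this
  · intro k
    exact hs.ip_cont (F := (qX P).F k) ((qX P).spv k)
  · intro k t ht
    have hI : t ∈ Ico 0 T := ⟨ht.1.le, ht.2⟩
    have hspv := hs.spv hI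
    have hFs := (qX P).spv k
    have hdF : ∀ x, dv ((qX P).F k) x = 0 := fun x => dv_fd ((qX P).RD k) (fun q => crl_Dv P.X P.wh.wd k q) x
    have hd := hs.ip_deriv hOk hFs hdF ht
    have hen := (hs.energy_le hOk hν hI).trans hE
    have e1 := qX_lap P hspv k
    have hRk : (0 : ℝ) < (R : ℝ) ^ k := pow_pos h.pc.R0 k
    have hwk := hw.pos k
    have e2 : ∀ x i j, |pd j (fun y => (qX P).F k y i) x| ≤ dd X * ((R : ℝ) ^ k * wd (Lw R κ) k) := by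
      intro x i j
      exact pd_q P k x i j
    have e5 := ns_err h (dd_nonneg X) hspv hFs hen hν k e1 e2
    refine ⟨_, e5.trans ?_, hd.congr_deriv ?_⟩
    · have h4 : 3 / 2 * (560 * ν * Real.sqrt E + 3 * dd X * E) ≤ b0 ν G E (dd X) := by
        unfold b0
        have : 0 ≤ 44 * (G * E) := by positivity
        linarith
      have h5 : 0 ≤ ((R : ℝ) ^ (σ - κ)) ^ k := by positivity
      nlinarith
    · have hk : ip (KQ (kT P) (u t) (u t)) ((qX P).F k)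
          = th P k * qi (gG G ((R : ℝ) ^ σ)) P.δ (R : ℝ)⁻¹ R (fun k s => P.co (u s) k) (fun k s => qo P (u s) k) k t :=
        kT_qo P hspv k
      rw [hKip hspv hFs, hk, hδ, qi_sgn]
      ring
  · intro T1 hT1
    obtain ⟨D, hD0, hD⟩ := hs.cs_dec (qX P) hw hT1 2
    refine ⟨D, fun k t ht => ?_⟩
    rw [le_div_iff₀ (by have := h.pc.R0; positivity)]
    exact hD t ht k


/-- Closeness of the coefficients of the first family. -/
theorem close_p (h : PD R σ κ) (hk : 2 * κ ≤ σ - 1) (hG : 0 < G) (hX : PkF h.pc.wh.wd X) {v w : V → V} (hv : Continuous v)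
    (hw : Continuous w) {r : ℝ} (hr : ∀ x i, |v x i - w x i| ≤ r) (m : ℕ) :
    |(qm h.pc hG hX).co v m - (qm h.pc hG hX).co w m| ≤ 5400 * r / ((R : ℝ) ^ (2 - σ + κ)) ^ m ∧
    |qo (qm h.pc hG hX) v m - qo (qm h.pc hG hX) w m| ≤ 5400 * r / ((R : ℝ) ^ (2 - σ + κ)) ^ m := by
  set P := qm h.pc hG hX with hP
  have hr0 : 0 ≤ r := (abs_nonneg _).trans (hr 0 0)
  have hR0 := h.pc.R0
  have hQ0 : 0 < ((R : ℝ) ^ (2 - σ + κ)) ^ m := pow_pos (Real.rpow_pos_of_pos hR0 _) m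
  have h3 := h.pc.wd_ge m
  have h7 : (R : ℝ) ^ (2 - σ + κ) ≤ (R : ℝ) ^ (1 - κ) := Real.rpow_le_rpow_of_exponent_le h.pc.R1.le (by linarith)
  have h8 : ((R : ℝ) ^ (2 - σ + κ)) ^ m ≤ ((R : ℝ) ^ (1 - κ)) ^ m :=
    pow_le_pow_left₀ (Real.rpow_nonneg hR0.le _) h7 m
  have hw0 := h.pc.wh.wd.pos m
  have key : 3 * r * (900 / wd (Lw R κ) m) ≤ 5400 * r / ((R : ℝ) ^ (2 - σ + κ)) ^ m := by
    rw [le_div_iff₀ hQ0]
    have h9 : ((R : ℝ) ^ (2 - σ + κ)) ^ m ≤ 2 * wd (Lw R κ) m := by linarith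
    calc 3 * r * (900 / wd (Lw R κ) m) * ((R : ℝ) ^ (2 - σ + κ)) ^ m
        ≤ 3 * r * (900 / wd (Lw R κ) m) * (2 * wd (Lw R κ) m) := by gcongr
      _ = 5400 * r := by field_simp; ring
  constructor
  · exact ((P.pk.pp m).close hv hw hr).trans key
  · exact ((P.pk.qp m).close hv hw hr).trans key


/-! ### the perturbation -/

theorem Qm.dvF (P : Qm) (n : ℕ) (x : V) : dv (P.X.F n) x = 0 := dv_fd (P.X.RD n) (fun q => P.Dv n q) x

noncomputable def Qm.pt (P : Qm) (n : ℕ) (c0 c1 : ℝ) : V → V := c0 • P.X.F n + c1 • P.X.F (n + 1)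

theorem Qm.pt_spv (P : Qm) (n : ℕ) (c0 c1 : ℝ) : SPV (P.pt n c0 c1) :=
  ((P.X.spv n).smul c0).add ((P.X.spv (n + 1)).smul c1)

theorem Qm.pt_dv (P : Qm) (n : ℕ) (c0 c1 : ℝ) (x : V) : dv (P.pt n c0 c1) x = 0 := by
  unfold Qm.pt
  rw [dv_add ((P.X.spv n).smul c0) ((P.X.spv (n + 1)).smul c1), dv_smul (P.X.spv n), dv_smul (P.X.spv (n + 1)),
    P.dvF, P.dvF]
  ring

theorem Qm.pt_energy (P : Qm) (n : ℕ) (c0 c1 : ℝ) : energy (P.pt n c0 c1) ≤ 2 * c0 ^ 2 + 2 * c1 ^ 2 := by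
  refine (energy_add_le ((P.X.spv n).cont.const_smul c0) ((P.X.spv (n + 1)).cont.const_smul c1)).trans (le_of_eq ?_)
  rw [energy_smul, energy_smul, energy_F, energy_F]
  ring

theorem Qm.pt_co (P : Qm) (n : ℕ) (c0 c1 : ℝ) (m : ℕ) : P.co (P.pt n c0 c1) m = sel n c0 c1 m := by
  have hm := (P.X.spv m).cont
  have h0 := (P.X.spv n).cont
  have h1 := (P.X.spv (n + 1)).cont
  have e : P.co (P.pt n c0 c1) m = c0 * P.co (P.X.F n) m + c1 * P.co (P.X.F (n + 1)) m := by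
    show ip (c0 • P.X.F n + c1 • P.X.F (n + 1)) (P.X.F m) = _
    rw [ip_add (h0.const_smul c0) (h1.const_smul c1) hm, ip_smul, ip_smul]
    rfl
  rw [e, P.co_F, P.co_F]
  unfold sel
  by_cases a1 : m = n
  · subst a1
    simp
  · by_cases a2 : m = n + 1
    · subst a2
      simp
    · rw [if_neg (Ne.symm a1), if_neg (Ne.symm a2), if_neg a1, if_neg a2]
      ring

/-- The perturbation has no component on the second family. -/
theorem qo_pt (P : Qm) (n : ℕ) (c0 c1 : ℝ) (m : ℕ) : qo P (P.pt n c0 c1) m = 0 := by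
  have hm := ((qX P).spv m).cont
  have h0 := (P.X.spv n).cont
  have h1 := (P.X.spv (n + 1)).cont
  have e : qo P (P.pt n c0 c1) m = c0 * qo P (P.X.F n) m + c1 * qo P (P.X.F (n + 1)) m := by
    show ip (c0 • P.X.F n + c1 • P.X.F (n + 1)) ((qX P).F m) = _
    rw [ip_add (h0.const_smul c0) (h1.const_smul c1) hm, ip_smul, ip_smul]
    rfl
  rw [e, qo_p, qo_p]
  ring

end Pool.Agent.N980.WT
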